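import Mathlib

/-! # Products over zeros with and without multiplicities: dyadic sums -/

set_option autoImplicit false

open Filter Topology

namespace Pool.Agent.Run7.h833.SG

lemma log_quad {y : ℝ} (hy : 0 ≤ y) : Real.log (1 + 4 * y) ≤ 4 * Real.log (1 + y) := by
  have h1 : (4 : ℝ) * Real.log (1 + y) = Real.log ((1 + y) ^ 4) := by
    rw [Real.log_pow]
    norm_num
  rw [h1]
  refine Real.log_le_log (by positivity) ?_
  nlinarith [sq_nonneg y, mul_nonneg hy hy, mul_nonneg hy (sq_nonneg y), mul_nonneg (sq_nonneg y) (sq_nonneg y)]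

lemma wsum {a b : ℝ} (ha : 0 ≤ a) (ha1 : a < 1) (hb : 0 ≤ b) (hb1 : b < 1) : ∃ W : ℝ, 0 < W ∧
    ∀ n m : ℕ, ∑ j ∈ Finset.range n, 2 * ((j : ℝ) + 2) * a ^ j + ∑ i ∈ Finset.range m, 8 * ((i : ℝ) + 2) * b ^ i ≤ W := by
  have key : ∀ c : ℝ, 0 ≤ c → c < 1 → Summable fun j : ℕ => ((j : ℝ) + 2) * c ^ j := by
    intro c hc hc1
    have h1 : Summable fun j : ℕ => (j : ℝ) * c ^ j := by
      have := summable_pow_mul_geometric_of_norm_lt_one 1 (r := c) (by rw [Real.norm_eq_abs, abs_of_nonneg hc]; exact hc1)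
      simpa using this
    have h2 : Summable fun j : ℕ => 2 * c ^ j := (summable_geometric_of_lt_one hc hc1).mul_left 2
    refine (h1.add h2).congr fun j => ?_
    ring
  have sa := (key a ha ha1).mul_left 2
  have sb := (key b hb hb1).mul_left 8
  refine ⟨∑' j : ℕ, 2 * (((j : ℝ) + 2) * a ^ j) + ∑' i : ℕ, 8 * (((i : ℝ) + 2) * b ^ i) + 1, ?_, fun n m => ?_⟩
  · have h1 : 0 ≤ ∑' j : ℕ, 2 * (((j : ℝ) + 2) * a ^ j) := tsum_nonneg fun j => by positivity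
    have h2 : 0 ≤ ∑' i : ℕ, 8 * (((i : ℝ) + 2) * b ^ i) := tsum_nonneg fun i => by positivity
    linarith
  · have h1 := sa.sum_le_tsum (Finset.range n) fun j _ => by positivity
    have h2 := sb.sum_le_tsum (Finset.range m) fun j _ => by positivity
    have e1 : ∑ j ∈ Finset.range n, 2 * ((j : ℝ) + 2) * a ^ j = ∑ j ∈ Finset.range n, 2 * (((j : ℝ) + 2) * a ^ j) :=
      Finset.sum_congr rfl fun j _ => by ring
    have e2 : ∑ i ∈ Finset.range m, 8 * ((i : ℝ) + 2) * b ^ i = ∑ i ∈ Finset.range m, 8 * (((i : ℝ) + 2) * b ^ i) :=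
      Finset.sum_congr rfl fun j _ => by ring
    rw [e1, e2]
    linarith

/-- the dyadic sum -/
lemma dyadic_sum {θ : ℝ} (h0 : 0 < θ) (h2 : θ < 2) : ∃ W : ℝ, 0 < W ∧ ∀ (x : ℝ), 1 ≤ x → ∀ (u : ℕ → ℝ) (U : ℝ), 0 ≤ U →
    (∀ k, 0 ≤ u k) → (∀ k i : ℕ, (2 : ℝ) ^ k ≤ x → u (k + i) ≤ U * ((i : ℝ) + 1)) →
    ∀ M : ℕ, ∑ k ∈ Finset.range M, u k * ((2 : ℝ) ^ k) ^ θ * Real.log (1 + x ^ 2 / ((2 : ℝ) ^ k) ^ 2) ≤ W * U * x ^ θ := by
  set a : ℝ := (2 : ℝ) ^ (-θ) with ha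
  set b : ℝ := (2 : ℝ) ^ (θ - 2) with hb
  have ha0 : 0 < a := Real.rpow_pos_of_pos two_pos _
  have hb0 : 0 < b := Real.rpow_pos_of_pos two_pos _
  have ha1 : a < 1 := Real.rpow_lt_one_of_one_lt_of_neg one_lt_two (by linarith)
  have hb1 : b < 1 := Real.rpow_lt_one_of_one_lt_of_neg one_lt_two (by linarith)
  obtain ⟨W, hW, hsum⟩ := wsum ha0.le ha1 hb0.le hb1
  refine ⟨W, hW, fun x hx u U hU hu hb2 M => ?_⟩
  obtain ⟨K, hK1, hK2⟩ := exists_nat_pow_near hx one_lt_two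
  set T : ℕ → ℝ := fun k => u k * ((2 : ℝ) ^ k) ^ θ * Real.log (1 + x ^ 2 / ((2 : ℝ) ^ k) ^ 2) with hT
  have hT0 : ∀ k, 0 ≤ T k := by
    intro k
    have h1 : 0 ≤ x ^ 2 / ((2 : ℝ) ^ k) ^ 2 := by positivity
    exact mul_nonneg (mul_nonneg (hu k) (by positivity)) (Real.log_nonneg (by linarith))
  have hpow : ∀ k : ℕ, ((2 : ℝ) ^ k) ^ θ = ((2 : ℝ) ^ θ) ^ k := by
    intro k
    rw [← Real.rpow_natCast, ← Real.rpow_natCast, ← Real.rpow_mul (by norm_num), ← Real.rpow_mul (by norm_num), mul_comm]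
  have h2θ : 0 < (2 : ℝ) ^ θ := Real.rpow_pos_of_pos two_pos _
  have haθ : a * (2 : ℝ) ^ θ = 1 := by
    rw [ha, ← Real.rpow_add two_pos]
    simp
  have hxθ : ((2 : ℝ) ^ θ) ^ K ≤ x ^ θ := by
    rw [← hpow]
    exact Real.rpow_le_rpow (by positivity) hK1 h0.le
  -- the terms up to `K`
  have hlow : ∀ j, j ≤ K → T (K - j) ≤ U * ((2 : ℝ) ^ θ) ^ K * (2 * ((j : ℝ) + 2) * a ^ j) := by
    intro j hj
    have e1 : u (K - j) ≤ U := by
      have := hb2 (K - j) 0 ((pow_le_pow_right₀ one_le_two (Nat.sub_le K j)).trans hK1)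
      simpa using this
    have e2 : (((2 : ℝ) ^ (K - j)) ^ θ) = ((2 : ℝ) ^ θ) ^ K * a ^ j := by
      rw [hpow]
      have h3 : ((2 : ℝ) ^ θ) ^ K = ((2 : ℝ) ^ θ) ^ (K - j) * ((2 : ℝ) ^ θ) ^ j := by
        rw [← pow_add, Nat.sub_add_cancel hj]
      rw [h3, mul_assoc, ← mul_pow, mul_comm ((2 : ℝ) ^ θ) a, haθ, one_pow, mul_one]
    have e3 : Real.log (1 + x ^ 2 / ((2 : ℝ) ^ (K - j)) ^ 2) ≤ 2 * ((j : ℝ) + 2) := by
      have h3 : x / (2 : ℝ) ^ (K - j) ≤ 2 ^ (j + 1) := by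
        rw [div_le_iff₀ (by positivity), ← pow_add]
        have : j + 1 + (K - j) = K + 1 := by omega
        rw [this]
        exact hK2.le
      have h4 : 1 + x ^ 2 / ((2 : ℝ) ^ (K - j)) ^ 2 ≤ (2 : ℝ) ^ (2 * (j + 2)) := by
        rw [← div_pow]
        have h5 : 0 ≤ x / (2 : ℝ) ^ (K - j) := by positivity
        have h6 : (x / (2 : ℝ) ^ (K - j)) ^ 2 ≤ (2 ^ (j + 1)) ^ 2 := pow_le_pow_left₀ h5 h3 2
        have h7 : (1 : ℝ) ≤ 2 ^ (j + 1) := one_le_pow₀ one_le_two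
        have h8 : (2 : ℝ) ^ (2 * (j + 2)) = 4 * (2 ^ (j + 1)) ^ 2 := by
          rw [← pow_mul, show 2 * (j + 2) = (j + 1) * 2 + 2 by ring, pow_add]
          norm_num
          ring
        rw [h8]
        nlinarith
      calc Real.log (1 + x ^ 2 / ((2 : ℝ) ^ (K - j)) ^ 2) ≤ Real.log ((2 : ℝ) ^ (2 * (j + 2))) :=
            Real.log_le_log (by positivity) h4
        _ = (2 * ((j : ℝ) + 2)) * Real.log 2 := by
            rw [Real.log_pow]
            push_cast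
            ring
        _ ≤ (2 * ((j : ℝ) + 2)) * 1 := by
            refine mul_le_mul_of_nonneg_left ?_ (by positivity)
            have := Real.log_two_lt_d9
            linarith
        _ = _ := mul_one _
    have e4 : 0 ≤ Real.log (1 + x ^ 2 / ((2 : ℝ) ^ (K - j)) ^ 2) := by
      have h1 : 0 ≤ x ^ 2 / ((2 : ℝ) ^ (K - j)) ^ 2 := by positivity
      exact Real.log_nonneg (by linarith)
    calc T (K - j) = u (K - j) * (((2 : ℝ) ^ θ) ^ K * a ^ j) * Real.log (1 + x ^ 2 / ((2 : ℝ) ^ (K - j)) ^ 2) := by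
          simp only [hT, e2]
      _ ≤ U * (((2 : ℝ) ^ θ) ^ K * a ^ j) * (2 * ((j : ℝ) + 2)) := by
          have h9 := hu (K - j)
          gcongr
      _ = _ := by ring
  have hhigh : ∀ i : ℕ, T (K + 1 + i) ≤ U * ((2 : ℝ) ^ θ) ^ K * (8 * ((i : ℝ) + 2) * b ^ i) := by
    intro i
    have e1 : u (K + 1 + i) ≤ U * ((i : ℝ) + 2) := by
      have := hb2 K (1 + i) hK1
      rw [add_assoc]
      refine this.trans (le_of_eq ?_)
      push_cast
      ring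
    have e3 : Real.log (1 + x ^ 2 / ((2 : ℝ) ^ (K + 1 + i)) ^ 2) ≤ ((1 / 4 : ℝ)) ^ i := by
      have h3 : x / (2 : ℝ) ^ (K + 1 + i) ≤ (1 / 2) ^ i := by
        rw [div_le_iff₀ (by positivity), pow_add, one_div, inv_pow]
        have h4 : ((2 : ℝ) ^ i)⁻¹ * (2 ^ (K + 1) * 2 ^ i) = 2 ^ (K + 1) := by field_simp
        rw [h4]
        exact hK2.le
      have h5 : 0 ≤ x / (2 : ℝ) ^ (K + 1 + i) := by positivity
      have h6 := Real.log_le_sub_one_of_pos (show 0 < 1 + x ^ 2 / ((2 : ℝ) ^ (K + 1 + i)) ^ 2 by positivity)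
      refine h6.trans ?_
      rw [← div_pow, add_sub_cancel_left]
      refine (pow_le_pow_left₀ h5 h3 2).trans (le_of_eq ?_)
      rw [← pow_mul, mul_comm i 2, pow_mul]
      norm_num
    have e2 : (((2 : ℝ) ^ (K + 1 + i)) ^ θ) * (1 / 4 : ℝ) ^ i = ((2 : ℝ) ^ θ) ^ K * ((2 : ℝ) ^ θ * b ^ i) := by
      rw [hpow]
      have h3 : b = (2 : ℝ) ^ θ * (1 / 4) := by
        rw [hb, Real.rpow_sub two_pos]
        norm_num
        ring
      rw [h3, mul_pow]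
      ring
    have h4 : (2 : ℝ) ^ θ ≤ 4 := by
      calc (2 : ℝ) ^ θ ≤ (2 : ℝ) ^ (2 : ℝ) := Real.rpow_le_rpow_of_exponent_le one_le_two h2.le
        _ = 4 := by norm_num
    have hL : 0 ≤ Real.log (1 + x ^ 2 / ((2 : ℝ) ^ (K + 1 + i)) ^ 2) := by
      have h1 : 0 ≤ x ^ 2 / ((2 : ℝ) ^ (K + 1 + i)) ^ 2 := by positivity
      exact Real.log_nonneg (by linarith)
    calc T (K + 1 + i) ≤ U * ((i : ℝ) + 2) * ((2 : ℝ) ^ (K + 1 + i)) ^ θ * (1 / 4 : ℝ) ^ i := by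
          simp only [hT]
          have h9 := hu (K + 1 + i)
          gcongr
      _ = U * ((i : ℝ) + 2) * (((2 : ℝ) ^ θ) ^ K * ((2 : ℝ) ^ θ * b ^ i)) := by rw [mul_assoc _ (_ ^ θ), e2]
      _ ≤ U * ((i : ℝ) + 2) * (((2 : ℝ) ^ θ) ^ K * (4 * b ^ i)) := by gcongr
      _ ≤ U * ((i : ℝ) + 2) * (((2 : ℝ) ^ θ) ^ K * (8 * b ^ i)) := by
          gcongr
          norm_num
      _ = _ := by ring
  have s1 : ∑ k ∈ Finset.range M, T k ≤ ∑ k ∈ Finset.range (K + 1 + M), T k :=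
    Finset.sum_le_sum_of_subset_of_nonneg (Finset.range_subset_range.2 (by omega)) fun k _ _ => hT0 k
  have s2 : ∑ k ∈ Finset.range (K + 1), T k = ∑ j ∈ Finset.range (K + 1), T (K - j) := by
    rw [← Finset.sum_range_reflect]
    simp
  rw [Finset.sum_range_add, s2] at s1
  have s3 : ∑ j ∈ Finset.range (K + 1), T (K - j) ≤
      ∑ j ∈ Finset.range (K + 1), U * ((2 : ℝ) ^ θ) ^ K * (2 * ((j : ℝ) + 2) * a ^ j) :=
    Finset.sum_le_sum fun j hj => hlow j (by rw [Finset.mem_range] at hj; omega)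
  have s4 : ∑ i ∈ Finset.range M, T (K + 1 + i) ≤
      ∑ i ∈ Finset.range M, U * ((2 : ℝ) ^ θ) ^ K * (8 * ((i : ℝ) + 2) * b ^ i) :=
    Finset.sum_le_sum fun i _ => hhigh i
  have s5 := hsum (K + 1) M
  rw [← Finset.mul_sum] at s3 s4
  have hA : 0 ≤ U * ((2 : ℝ) ^ θ) ^ K := by positivity
  calc ∑ k ∈ Finset.range M, T k ≤ U * ((2 : ℝ) ^ θ) ^ K * (∑ j ∈ Finset.range (K + 1), 2 * ((j : ℝ) + 2) * a ^ j +
        ∑ i ∈ Finset.range M, 8 * ((i : ℝ) + 2) * b ^ i) := by rw [mul_add]; linarith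
    _ ≤ U * ((2 : ℝ) ^ θ) ^ K * W := mul_le_mul_of_nonneg_left s5 hA
    _ ≤ U * x ^ θ * W := by gcongr
    _ = _ := by ring

end Pool.Agent.Run7.h833.SG
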