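import Pool.Agent.Run7.h833.SG.A

/-! # Products over zeros with and without multiplicities: the lost zeros and the growth -/

set_option autoImplicit false

open Filter Topology

namespace Pool.Agent.Run7.h833.SG

/-- `c x` is the product of `(1 + x²/t²)^(m t)` over `t ∈ S`, and `g x` the product without the exponents -/
structure Dat (S : Set ℝ) (m : ℝ → ℕ) (c g : ℝ → ℝ) : Prop where
  pos : ∀ t ∈ S, 0 < t
  fin : ∀ T : ℝ, {t | t ∈ S ∧ t ≤ T}.Finite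
  lo : ∀ x : ℝ, 0 ≤ x → ∀ F : Finset ℝ, (∀ t ∈ F, t ∈ S) → ∏ t ∈ F, (1 + x ^ 2 / t ^ 2) ^ m t ≤ c x
  up : ∀ x : ℝ, 0 ≤ x → ∀ ε : ℝ, 0 < ε → ∃ F : Finset ℝ, (∀ t ∈ F, t ∈ S) ∧ c x ≤ (1 + ε) * ∏ t ∈ F, (1 + x ^ 2 / t ^ 2) ^ m t
  glo : ∀ x : ℝ, 0 ≤ x → ∀ F : Finset ℝ, (∀ t ∈ F, t ∈ S) → ∏ t ∈ F, (1 + x ^ 2 / t ^ 2) ≤ g x
  gm : ∀ x : ℝ, 0 ≤ x → ∀ F : Finset ℝ, (∀ t ∈ F, t ∈ S) → g x * ∏ t ∈ F, (1 + x ^ 2 / t ^ 2) ^ (m t - 1) ≤ c x

/-- the logarithm of a factor -/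
noncomputable def wt (x t : ℝ) : ℝ := Real.log (1 + x ^ 2 / t ^ 2)

lemma wt_nonneg (x t : ℝ) : 0 ≤ wt x t := by
  have : 0 ≤ x ^ 2 / t ^ 2 := by positivity
  exact Real.log_nonneg (by linarith)

lemma log_prod_pow (F : Finset ℝ) (n : ℝ → ℕ) (x : ℝ) :
    Real.log (∏ t ∈ F, (1 + x ^ 2 / t ^ 2) ^ n t) = ∑ t ∈ F, (n t : ℝ) * wt x t := by
  rw [Real.log_prod (fun t _ => by positivity)]
  refine Finset.sum_congr rfl fun t _ => ?_
  rw [Real.log_pow]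
  rfl

section
variable {S : Set ℝ} {m : ℝ → ℕ} {c g : ℝ → ℝ} (h : Dat S m c g)
include h

namespace Dat

lemma c_one {x : ℝ} (hx : 0 ≤ x) : 1 ≤ c x := by
  have := h.lo x hx ∅ (by simp)
  simpa using this

lemma g_one {x : ℝ} (hx : 0 ≤ x) : 1 ≤ g x := by
  have := h.glo x hx ∅ (by simp)
  simpa using this

lemma g_le {x : ℝ} (hx : 0 ≤ x) : g x ≤ c x := by
  have := h.gm x hx ∅ (by simp)
  simpa using this

lemma sum_le_log {x : ℝ} (hx : 0 ≤ x) {F : Finset ℝ} (hF : ∀ t ∈ F, t ∈ S) :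
    ∑ t ∈ F, (m t : ℝ) * wt x t ≤ Real.log (c x) := by
  rw [← log_prod_pow]
  exact Real.log_le_log (Finset.prod_pos fun t _ => by positivity) (h.lo x hx F hF)

lemma sum_le_diff {x : ℝ} (hx : 0 ≤ x) {F : Finset ℝ} (hF : ∀ t ∈ F, t ∈ S) :
    ∑ t ∈ F, ((m t - 1 : ℕ) : ℝ) * wt x t ≤ Real.log (c x) - Real.log (g x) := by
  have hg := h.g_one hx
  have h1 := h.gm x hx F hF
  have hp : 0 < ∏ t ∈ F, (1 + x ^ 2 / t ^ 2) ^ (m t - 1) := Finset.prod_pos fun t _ => by positivity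
  have h2 := Real.log_le_log (by positivity) h1
  rw [Real.log_mul (by positivity) hp.ne', log_prod_pow F (fun t => m t - 1)] at h2
  linarith

lemma log_le_sum {x : ℝ} (hx : 0 ≤ x) {ε : ℝ} (hε : 0 < ε) : ∃ F : Finset ℝ, (∀ t ∈ F, t ∈ S) ∧
    Real.log (c x) ≤ ε + ∑ t ∈ F, (m t : ℝ) * wt x t := by
  obtain ⟨F, hF, h1⟩ := h.up x hx ε hε
  refine ⟨F, hF, ?_⟩
  have hc := h.c_one hx
  have hp : 0 < ∏ t ∈ F, (1 + x ^ 2 / t ^ 2) ^ (m t) := Finset.prod_pos fun t _ => by positivity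
  have h2 := Real.log_le_log (by linarith) h1
  rw [Real.log_mul (by positivity) hp.ne', log_prod_pow F m] at h2
  have h3 := Real.log_le_sub_one_of_pos (show 0 < 1 + ε by linarith)
  linarith

lemma diff_le_sum (hm : ∀ t ∈ S, 1 ≤ m t) {x : ℝ} (hx : 0 ≤ x) {ε : ℝ} (hε : 0 < ε) : ∃ F : Finset ℝ, (∀ t ∈ F, t ∈ S) ∧
    Real.log (c x) - Real.log (g x) ≤ ε + ∑ t ∈ F, ((m t - 1 : ℕ) : ℝ) * wt x t := by
  obtain ⟨F, hF, h1⟩ := h.log_le_sum hx hε
  refine ⟨F, hF, ?_⟩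
  have h2 : ∑ t ∈ F, wt x t ≤ Real.log (g x) := by
    have h3 := Real.log_le_log (Finset.prod_pos fun t _ => by positivity) (h.glo x hx F hF)
    rw [Real.log_prod (fun t _ => by positivity)] at h3
    exact h3
  have h4 : ∑ t ∈ F, (m t : ℝ) * wt x t = ∑ t ∈ F, ((m t - 1 : ℕ) : ℝ) * wt x t + ∑ t ∈ F, wt x t := by
    rw [← Finset.sum_add_distrib]
    refine Finset.sum_congr rfl fun t ht => ?_
    rw [Nat.cast_sub (hm t (hF t ht))]
    push_cast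
    ring
  linarith

/-- the elements of `S` up to `T` -/
noncomputable def s (T : ℝ) : Finset ℝ := (h.fin T).toFinset

lemma mem_s {T t : ℝ} : t ∈ h.s T ↔ t ∈ S ∧ t ≤ T := by
  unfold s
  rw [Set.Finite.mem_toFinset]
  rfl

/-- the elements of `S` in `(A, B]` -/
noncomputable def blk (A B : ℝ) : Finset ℝ := (h.s B).filter fun t => A < t

lemma mem_blk {A B t : ℝ} : t ∈ h.blk A B ↔ t ∈ S ∧ A < t ∧ t ≤ B := by
  unfold blk
  rw [Finset.mem_filter, mem_s]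
  tauto

lemma sum_split {A B : ℝ} (hAB : A ≤ B) (φ : ℝ → ℝ) : ∑ t ∈ h.s B, φ t = ∑ t ∈ h.s A, φ t + ∑ t ∈ h.blk A B, φ t := by
  classical
  have h1 : h.s B = h.s A ∪ h.blk A B := by
    ext t
    rw [Finset.mem_union, mem_s, mem_s, mem_blk]
    constructor
    · rintro ⟨h2, h3⟩
      rcases le_or_gt t A with h4 | h4
      · exact Or.inl ⟨h2, h4⟩
      · exact Or.inr ⟨h2, h4, h3⟩
    · rintro (⟨h2, h3⟩ | ⟨h2, h3, h4⟩)
      · exact ⟨h2, h3.trans hAB⟩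
      · exact ⟨h2, h4⟩
  have h2 : Disjoint (h.s A) (h.blk A B) := by
    rw [Finset.disjoint_left]
    intro t ht ht'
    rw [mem_s] at ht
    rw [mem_blk] at ht'
    linarith [ht.2, ht'.2.1]
  rw [h1, Finset.sum_union h2]

lemma sum_dyadic {T : ℝ} (hT : 0 ≤ T) (φ : ℝ → ℝ) (K : ℕ) : ∑ t ∈ h.s (2 ^ K * T), φ t =
    ∑ t ∈ h.s T, φ t + ∑ k ∈ Finset.range K, ∑ t ∈ h.blk (2 ^ k * T) (2 * (2 ^ k * T)), φ t := by
  induction K with
  | zero => simp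
  | succ K ih =>
    have h1 : (2 : ℝ) ^ (K + 1) * T = 2 * (2 ^ K * T) := by ring
    have h2 : 0 ≤ (2 : ℝ) ^ K * T := by positivity
    rw [Finset.sum_range_succ, ← add_assoc, ← ih, h1, h.sum_split (A := 2 ^ K * T) (B := 2 * (2 ^ K * T)) (by linarith)]

/-- the number of elements in `(A, B]` with weights -/
noncomputable def cnt (w : ℝ → ℕ) (A B : ℝ) : ℝ := ∑ t ∈ h.blk A B, (w t : ℝ)

lemma cnt_nonneg (w : ℝ → ℕ) (A B : ℝ) : 0 ≤ h.cnt w A B := Finset.sum_nonneg fun _ _ => Nat.cast_nonneg _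

omit h in
lemma wt_blk {A t x : ℝ} (hA : 0 < A) (ht : A < t ∧ t ≤ 2 * A) :
    wt x t ≤ Real.log (1 + x ^ 2 / A ^ 2) ∧ Real.log (1 + x ^ 2 / A ^ 2) ≤ 4 * wt x t := by
  have ht0 : 0 < t := hA.trans ht.1
  refine ⟨?_, ?_⟩
  · refine Real.log_le_log (by positivity) ?_
    have : x ^ 2 / t ^ 2 ≤ x ^ 2 / A ^ 2 := by
      refine div_le_div_of_nonneg_left (sq_nonneg x) (by positivity) ?_
      exact pow_le_pow_left₀ hA.le ht.1.le 2
    linarith
  · refine le_trans ?_ (log_quad (by positivity))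
    refine Real.log_le_log (by positivity) ?_
    have h1 : x ^ 2 / A ^ 2 ≤ 4 * (x ^ 2 / t ^ 2) := by
      rw [← mul_div_assoc, div_le_div_iff₀ (by positivity) (by positivity)]
      have h2 : t ^ 2 ≤ (2 * A) ^ 2 := pow_le_pow_left₀ ht0.le ht.2 2
      have h3 := sq_nonneg x
      nlinarith
    linarith

lemma blk_le (w : ℝ → ℕ) {A : ℝ} (hA : 0 < A) (x : ℝ) :
    ∑ t ∈ h.blk A (2 * A), (w t : ℝ) * wt x t ≤ h.cnt w A (2 * A) * Real.log (1 + x ^ 2 / A ^ 2) := by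
  unfold cnt
  rw [Finset.sum_mul]
  refine Finset.sum_le_sum fun t ht => ?_
  rw [mem_blk] at ht
  exact mul_le_mul_of_nonneg_left (wt_blk hA ht.2).1 (Nat.cast_nonneg _)

lemma le_blk (w : ℝ → ℕ) {A : ℝ} (hA : 0 < A) (x : ℝ) :
    h.cnt w A (2 * A) * Real.log (1 + x ^ 2 / A ^ 2) ≤ 4 * ∑ t ∈ h.blk A (2 * A), (w t : ℝ) * wt x t := by
  unfold cnt
  rw [Finset.sum_mul, Finset.mul_sum]
  refine Finset.sum_le_sum fun t ht => ?_
  rw [mem_blk] at ht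
  have := mul_le_mul_of_nonneg_left (wt_blk hA ht.2 (x := x)).2 (Nat.cast_nonneg (w t) : (0 : ℝ) ≤ _)
  linarith

/-- sums over finite sets against sums over initial segments -/
lemma sum_le_seg (w : ℝ → ℕ) {x : ℝ} {F : Finset ℝ} (hF : ∀ t ∈ F, t ∈ S) {T : ℝ} (hT : 0 < T) :
    ∃ K : ℕ, ∑ t ∈ F, (w t : ℝ) * wt x t ≤ ∑ t ∈ h.s (2 ^ K * T), (w t : ℝ) * wt x t := by
  obtain ⟨B, hB⟩ := F.exists_le
  obtain ⟨K, hK⟩ := pow_unbounded_of_one_lt (B / T) one_lt_two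
  refine ⟨K, Finset.sum_le_sum_of_subset_of_nonneg (fun t ht => ?_) fun t _ _ => mul_nonneg (Nat.cast_nonneg _) (wt_nonneg x t)⟩
  rw [mem_s]
  refine ⟨hF t ht, (hB t ht).trans ?_⟩
  rw [div_lt_iff₀ hT] at hK
  exact hK.le

/-- the zeros in `(T, 2T]` lost to multiplicity are controlled by the quotient at `x = T` -/
lemma lost_le {T : ℝ} (hT : 0 < T) :
    h.cnt (fun t => m t - 1) T (2 * T) * Real.log (5 / 4) ≤ Real.log (c T) - Real.log (g T) := by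
  refine le_trans ?_ (h.sum_le_diff hT.le (F := h.blk T (2 * T)) fun t ht => ((h.mem_blk).1 ht).1)
  unfold cnt
  rw [Finset.sum_mul]
  refine Finset.sum_le_sum fun t ht => ?_
  rw [mem_blk] at ht
  refine mul_le_mul_of_nonneg_left ?_ (Nat.cast_nonneg _)
  have ht0 : 0 < t := hT.trans ht.2.1
  refine Real.log_le_log (by norm_num) ?_
  have h1 : 1 / 4 ≤ T ^ 2 / t ^ 2 := by
    rw [div_le_div_iff₀ (by norm_num) (by positivity)]
    have := pow_le_pow_left₀ ht0.le ht.2.2 2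
    nlinarith
  linarith

/-- the upper bound of the quotient if few zeros are lost -/
lemma diff_le (hm : ∀ t ∈ S, 1 ≤ m t) {T ε : ℝ} (hT : 0 < T) (hε : 0 ≤ ε)
    (he : ∀ A : ℝ, T ≤ A → h.cnt (fun t => m t - 1) A (2 * A) ≤ ε * h.cnt m A (2 * A)) {x : ℝ} (hx : 0 ≤ x) :
    Real.log (c x) - Real.log (g x) ≤ ∑ t ∈ h.s T, ((m t - 1 : ℕ) : ℝ) * wt x t + 4 * ε * Real.log (c x) := by
  refine le_of_forall_pos_le_add fun δ hδ => ?_
  obtain ⟨F, hF, h1⟩ := h.diff_le_sum hm hx hδ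
  obtain ⟨K, hK⟩ := h.sum_le_seg (fun t => m t - 1) (x := x) hF hT
  rw [h.sum_dyadic hT.le] at hK
  have h2 : ∑ k ∈ Finset.range K, ∑ t ∈ h.blk (2 ^ k * T) (2 * (2 ^ k * T)), (((fun t => m t - 1) t : ℕ) : ℝ) * wt x t ≤
      ∑ k ∈ Finset.range K, 4 * ε * ∑ t ∈ h.blk (2 ^ k * T) (2 * (2 ^ k * T)), (m t : ℝ) * wt x t := by
    refine Finset.sum_le_sum fun k _ => ?_
    have hA : 0 < (2 : ℝ) ^ k * T := by positivity
    have hTA : T ≤ 2 ^ k * T := by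
      have : (1 : ℝ) ≤ 2 ^ k := one_le_pow₀ one_le_two
      nlinarith
    have h3 := h.blk_le (fun t => m t - 1) hA x
    have h4 := he _ hTA
    have h5 := h.le_blk m hA x
    have h6 : 0 ≤ Real.log (1 + x ^ 2 / (2 ^ k * T) ^ 2) := by
      have : 0 ≤ x ^ 2 / ((2 : ℝ) ^ k * T) ^ 2 := by positivity
      exact Real.log_nonneg (by linarith)
    calc _ ≤ _ := h3
      _ ≤ (ε * h.cnt m (2 ^ k * T) (2 * (2 ^ k * T))) * Real.log (1 + x ^ 2 / (2 ^ k * T) ^ 2) :=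
          mul_le_mul_of_nonneg_right h4 h6
      _ = ε * (h.cnt m (2 ^ k * T) (2 * (2 ^ k * T)) * Real.log (1 + x ^ 2 / (2 ^ k * T) ^ 2)) := by ring
      _ ≤ ε * (4 * ∑ t ∈ h.blk (2 ^ k * T) (2 * (2 ^ k * T)), (m t : ℝ) * wt x t) := mul_le_mul_of_nonneg_left h5 hε
      _ = _ := by ring
  rw [← Finset.mul_sum] at h2
  have h7 : ∑ k ∈ Finset.range K, ∑ t ∈ h.blk (2 ^ k * T) (2 * (2 ^ k * T)), (m t : ℝ) * wt x t ≤ Real.log (c x) := by
    have h8 := h.sum_dyadic hT.le (fun t => (m t : ℝ) * wt x t) K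
    have h9 := h.sum_le_log hx (F := h.s (2 ^ K * T)) fun t ht => ((h.mem_s).1 ht).1
    have h10 : 0 ≤ ∑ t ∈ h.s T, (m t : ℝ) * wt x t :=
      Finset.sum_nonneg fun t _ => mul_nonneg (Nat.cast_nonneg _) (wt_nonneg x t)
    linarith
  have h11 : 4 * ε * ∑ k ∈ Finset.range K, ∑ t ∈ h.blk (2 ^ k * T) (2 * (2 ^ k * T)), (m t : ℝ) * wt x t ≤
      4 * ε * Real.log (c x) := mul_le_mul_of_nonneg_left h7 (by linarith)
  linarith

/-- the finite part grows logarithmically -/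
lemma seg_le (w : ℝ → ℕ) (T : ℝ) : ∃ A : ℝ, 0 < A ∧ ∀ x : ℝ, 1 ≤ x →
    ∑ t ∈ h.s T, (w t : ℝ) * wt x t ≤ A * (1 + Real.log x) := by
  refine ⟨1 + ∑ t ∈ h.s T, (w t : ℝ) * (2 + wt 1 t), ?_, fun x hx => ?_⟩
  · have : 0 ≤ ∑ t ∈ h.s T, (w t : ℝ) * (2 + wt 1 t) :=
      Finset.sum_nonneg fun t _ => mul_nonneg (Nat.cast_nonneg _) (by linarith [wt_nonneg 1 t])
    linarith
  · have hl : 0 ≤ Real.log x := Real.log_nonneg hx
    have h1 : ∑ t ∈ h.s T, (w t : ℝ) * wt x t ≤ ∑ t ∈ h.s T, ((w t : ℝ) * (2 + wt 1 t)) * (1 + Real.log x) := by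
      refine Finset.sum_le_sum fun t ht => ?_
      have ht0 := h.pos t ((h.mem_s).1 ht).1
      have h2 : wt x t ≤ 2 * Real.log x + wt 1 t := by
        unfold wt
        have h3 : (1 : ℝ) + x ^ 2 / t ^ 2 ≤ x ^ 2 * (1 + 1 ^ 2 / t ^ 2) := by
          rw [mul_add, mul_one, one_pow, mul_one_div]
          nlinarith
        refine (Real.log_le_log (by positivity) h3).trans ?_
        rw [Real.log_mul (by positivity) (by positivity), Real.log_pow]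
        push_cast
        linarith
      have h4 : wt x t ≤ (2 + wt 1 t) * (1 + Real.log x) := by
        have := wt_nonneg 1 t
        nlinarith
      rw [mul_assoc]
      exact mul_le_mul_of_nonneg_left h4 (Nat.cast_nonneg _)
    rw [← Finset.sum_mul] at h1
    nlinarith

/-- sums over all zeros from counts in dyadic intervals -/
lemma growth (w : ℝ → ℕ) {θ : ℝ} (h0 : 0 < θ) (h2 : θ < 2) {C : ℝ} (hC : 0 ≤ C) (p : Bool)
    (hw : ∀ T : ℝ, 1 ≤ T → h.cnt w T (2 * T) ≤ C * T ^ θ * (1 + cond p (Real.log T) 0)) :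
    ∃ A : ℝ, 0 < A ∧ ∀ x : ℝ, 1 ≤ x → ∀ F : Finset ℝ, (∀ t ∈ F, t ∈ S) →
      ∑ t ∈ F, (w t : ℝ) * wt x t ≤ A * x ^ θ * (1 + cond p (Real.log x) 0) := by
  obtain ⟨W, hW, hsum⟩ := dyadic_sum h0 h2
  obtain ⟨A, hA, hseg⟩ := h.seg_le w 1
  have hlog2 : 1 / 2 ≤ Real.log 2 := by have := Real.log_two_gt_d9; linarith
  refine ⟨A * (1 + 1 / θ) + W * C * 2, by positivity, fun x hx F hF => ?_⟩
  have hlx : 0 ≤ Real.log x := Real.log_nonneg hx
  have hxθ : 1 ≤ x ^ θ := Real.one_le_rpow hx h0.le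
  obtain ⟨K, hK⟩ := h.sum_le_seg w (x := x) hF one_pos
  rw [h.sum_dyadic zero_le_one] at hK
  set u : ℕ → ℝ := fun k => C * (1 + cond p (k : ℝ) 0) with hu
  set U : ℝ := C * 2 * (1 + cond p (Real.log x) 0) with hU
  have hc0 : 0 ≤ cond p (Real.log x) 0 := by cases p <;> simp [hlx]
  have h3 : ∑ k ∈ Finset.range K, ∑ t ∈ h.blk (2 ^ k * 1) (2 * (2 ^ k * 1)), (w t : ℝ) * wt x t ≤
      ∑ k ∈ Finset.range K, u k * ((2 : ℝ) ^ k) ^ θ * Real.log (1 + x ^ 2 / ((2 : ℝ) ^ k) ^ 2) := by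
    refine Finset.sum_le_sum fun k _ => ?_
    rw [mul_one]
    have hA : 0 < (2 : ℝ) ^ k := by positivity
    have h4 := h.blk_le w hA x
    have h5 := hw (2 ^ k) (one_le_pow₀ one_le_two)
    have h6 : 0 ≤ Real.log (1 + x ^ 2 / ((2 : ℝ) ^ k) ^ 2) := by
      have : 0 ≤ x ^ 2 / ((2 : ℝ) ^ k) ^ 2 := by positivity
      exact Real.log_nonneg (by linarith)
    refine h4.trans (mul_le_mul_of_nonneg_right (h5.trans ?_) h6)
    have h7 : cond p (Real.log (2 ^ k)) 0 ≤ cond p (k : ℝ) 0 := by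
      cases p
      · simp
      · simp only [cond_true]
        rw [Real.log_pow]
        have := Real.log_two_lt_d9
        have hk : (0 : ℝ) ≤ k := Nat.cast_nonneg k
        nlinarith
    have h8 : 0 ≤ C * ((2 : ℝ) ^ k) ^ θ := by positivity
    simp only [hu]
    nlinarith
  have h4 := hsum x hx u U (by positivity) (fun k => by
    simp only [hu]
    cases p
    · simpa using hC
    · simp only [cond_true]; positivity) (fun k i hk => by
    simp only [hu, hU]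
    have hi : (0 : ℝ) ≤ i := Nat.cast_nonneg i
    have hk0 : (0 : ℝ) ≤ k := Nat.cast_nonneg k
    have hkl : (k : ℝ) ≤ 2 * Real.log x := by
      have h5 := Real.log_le_log (by positivity) hk
      rw [Real.log_pow] at h5
      nlinarith
    cases p
    · simp only [cond_false, add_zero, mul_one]
      nlinarith [mul_nonneg hC hi]
    · simp only [cond_true]
      push_cast
      have h6 : 1 + ((k : ℝ) + i) ≤ 2 * (1 + Real.log x) * (i + 1) := by nlinarith [mul_nonneg hlx hi]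
      calc C * (1 + ((k : ℝ) + i)) ≤ C * (2 * (1 + Real.log x) * (i + 1)) := mul_le_mul_of_nonneg_left h6 hC
        _ = _ := by ring) K
  have h5 := hseg x hx
  have h6 : A * (1 + Real.log x) ≤ A * (1 + 1 / θ) * x ^ θ := by
    have h7 : Real.log x ≤ x ^ θ / θ := Real.log_le_rpow_div (by linarith) h0
    have h8 : 1 + Real.log x ≤ (1 + 1 / θ) * x ^ θ := by
      rw [add_mul, one_mul, one_div_mul_eq_div]
      linarith
    calc A * (1 + Real.log x) ≤ A * ((1 + 1 / θ) * x ^ θ) := mul_le_mul_of_nonneg_left h8 hA.le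
      _ = _ := by ring
  have h9 : A * (1 + 1 / θ) * x ^ θ ≤ A * (1 + 1 / θ) * x ^ θ * (1 + cond p (Real.log x) 0) := by
    have : 0 ≤ A * (1 + 1 / θ) * x ^ θ := by positivity
    nlinarith
  calc ∑ t ∈ F, (w t : ℝ) * wt x t ≤ A * (1 + 1 / θ) * x ^ θ * (1 + cond p (Real.log x) 0) + W * U * x ^ θ := by linarith
    _ = _ := by rw [hU]; ring

end Dat

end

end Pool.Agent.Run7.h833.SG
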