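import Pool.Agent.Run7.h833.SG.B

/-! # Products over zeros with and without multiplicities: the equivalences -/

set_option autoImplicit false

open Filter Topology

namespace Pool.Agent.Run7.h833.SG.Dat

variable {S : Set ℝ} {m : ℝ → ℕ} {c g : ℝ → ℝ} (h : Dat S m c g)
include h

/-- the exponent of the lost zeros -/
theorem exponent (hm : ∀ t ∈ S, 1 ≤ m t) {θ : ℝ} (h0 : 0 < θ) (h2 : θ < 2) :
    (∃ C : ℝ, ∀ T : ℝ, 1 ≤ T → h.cnt (fun t => m t - 1) T (2 * T) ≤ C * T ^ θ) ↔
      ∃ C : ℝ, ∀ x : ℝ, 1 ≤ x → Real.log (c x) - Real.log (g x) ≤ C * x ^ θ := by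
  constructor
  · rintro ⟨C, hC⟩
    have hC0 : 0 ≤ C := by
      have h1 := hC 1 le_rfl
      have h3 := h.cnt_nonneg (fun t => m t - 1) 1 (2 * 1)
      rw [Real.one_rpow] at h1
      linarith
    obtain ⟨A, hA, hg⟩ := h.growth (fun t => m t - 1) h0 h2 hC0 false (fun T hT => by
      simpa using hC T hT)
    refine ⟨A, fun x hx => ?_⟩
    refine le_of_forall_pos_le_add fun δ hδ => ?_
    obtain ⟨F, hF, h1⟩ := h.diff_le_sum hm (by linarith : 0 ≤ x) hδ
    have h3 := hg x hx F hF
    simp only [cond_false, add_zero, mul_one] at h3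
    linarith
  · rintro ⟨C, hC⟩
    have hl : 0 < Real.log (5 / 4) := Real.log_pos (by norm_num)
    refine ⟨C / Real.log (5 / 4), fun T hT => ?_⟩
    have h1 := h.lost_le (by linarith : 0 < T)
    have h3 := hC T hT
    rw [div_mul_eq_mul_div, le_div_iff₀ hl]
    exact h1.trans h3

/-- the growth of the product with multiplicities -/
theorem log_growth {C : ℝ} (hC : 0 ≤ C) (hw : ∀ T : ℝ, 1 ≤ T → h.cnt m T (2 * T) ≤ C * T * (1 + Real.log T)) :
    ∃ A : ℝ, 0 < A ∧ ∀ x : ℝ, 1 ≤ x → Real.log (c x) ≤ A * x * (1 + Real.log x) := by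
  obtain ⟨A, hA, hg⟩ := h.growth m one_pos one_lt_two hC true (fun T hT => by
    simpa using hw T hT)
  refine ⟨A, hA, fun x hx => ?_⟩
  refine le_of_forall_pos_le_add fun δ hδ => ?_
  obtain ⟨F, hF, h1⟩ := h.log_le_sum (by linarith : 0 ≤ x) hδ
  have h3 := hg x hx F hF
  simp only [cond_true, Real.rpow_one] at h3
  linarith

/-- the logarithm grows faster than that of any power -/
theorem log_fast (hinf : S.Infinite) (hm : ∀ t ∈ S, 1 ≤ m t) (B : ℝ) : ∀ᶠ x : ℝ in atTop, B * (1 + Real.log x) ≤ Real.log (c x) := by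
  obtain ⟨n, hn⟩ := exists_nat_ge B
  obtain ⟨F, hF, hFn⟩ := hinf.exists_subset_card_eq n
  obtain ⟨M, hM⟩ := F.exists_le
  set M' : ℝ := max M 1 with hM'
  have hM0 : 0 < M' := lt_of_lt_of_le one_pos (le_max_right _ _)
  filter_upwards [eventually_ge_atTop (Real.exp (2 * Real.log M' + 1)), eventually_ge_atTop (Real.exp 0)] with x hx hx0
  rw [Real.exp_zero] at hx0
  have hx1 : 2 * Real.log M' + 1 ≤ Real.log x := by
    rw [Real.le_log_iff_exp_le (by linarith)]
    exact hx
  have hlM : 0 ≤ Real.log M' := Real.log_nonneg (le_max_right _ _)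
  have h1 := h.sum_le_log (by linarith : 0 ≤ x) (F := F) fun t ht => hF ht
  refine le_trans ?_ h1
  have h2 : ∀ t ∈ F, 1 + Real.log x ≤ (m t : ℝ) * wt x t := by
    intro t ht
    have ht0 := h.pos t (hF ht)
    have h3 : 2 * Real.log x - 2 * Real.log M' ≤ wt x t := by
      unfold wt
      have h4 : x ^ 2 / M' ^ 2 ≤ 1 + x ^ 2 / t ^ 2 := by
        have : x ^ 2 / M' ^ 2 ≤ x ^ 2 / t ^ 2 := by
          refine div_le_div_of_nonneg_left (sq_nonneg x) (by positivity) ?_
          exact pow_le_pow_left₀ ht0.le ((hM t ht).trans (le_max_left _ _)) 2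
        linarith
      have h5 := Real.log_le_log (by positivity) h4
      rw [Real.log_div (by positivity) (by positivity), Real.log_pow, Real.log_pow] at h5
      push_cast at h5
      exact h5
    have h6 : (1 : ℝ) ≤ m t := by exact_mod_cast hm t (hF ht)
    have h7 := wt_nonneg x t
    nlinarith
  have h3 := Finset.sum_le_sum h2
  rw [Finset.sum_const, hFn, nsmul_eq_mul] at h3
  refine le_trans ?_ h3
  exact mul_le_mul_of_nonneg_right hn (by linarith)

/-- few lost zeros and the growth -/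
theorem little (hinf : S.Infinite) (hm : ∀ t ∈ S, 1 ≤ m t) {C : ℝ} (hC : 0 ≤ C)
    (hw : ∀ T : ℝ, 1 ≤ T → h.cnt m T (2 * T) ≤ C * T * (1 + Real.log T)) {b T1 : ℝ} (hb : 0 < b)
    (hlow : ∀ T : ℝ, T1 ≤ T → b * T * (1 + Real.log T) ≤ h.cnt m T (2 * T)) :
    (∀ ε : ℝ, 0 < ε → ∃ T0 : ℝ, ∀ T : ℝ, T0 ≤ T → h.cnt (fun t => m t - 1) T (2 * T) ≤ ε * h.cnt m T (2 * T)) ↔
      Tendsto (fun x => Real.log (g x) / Real.log (c x)) atTop (𝓝 1) := by
  have hpos : ∀ᶠ x : ℝ in atTop, 0 < Real.log (c x) := by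
    filter_upwards [h.log_fast hinf hm 1, eventually_ge_atTop 1] with x hx hx1
    have := Real.log_nonneg hx1
    linarith
  constructor
  · intro hε
    rw [Metric.tendsto_nhds]
    intro δ hδ
    obtain ⟨T0, hT0⟩ := hε (δ / 16) (by positivity)
    set T : ℝ := max T0 1 with hT
    have hT1 : 0 < T := lt_of_lt_of_le one_pos (le_max_right _ _)
    obtain ⟨A, hA, hseg⟩ := h.seg_le (fun t => m t - 1) T
    filter_upwards [hpos, h.log_fast hinf hm (4 * A / δ), eventually_ge_atTop 1] with x hx hx2 hx1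
    have h1 := h.diff_le hm hT1 (by positivity : 0 ≤ δ / 16) (fun B hB => hT0 B ((le_max_left _ _).trans hB))
      (by linarith : 0 ≤ x)
    have h3 := hseg x hx1
    have h4 : A * (1 + Real.log x) ≤ δ / 4 * Real.log (c x) := by
      rw [div_mul_eq_mul_div, div_le_iff₀ hδ] at hx2
      linarith
    have hg := Real.log_le_log (by linarith [h.g_one (by linarith : 0 ≤ x)]) (h.g_le (by linarith : 0 ≤ x))
    rw [Real.dist_eq, abs_lt]
    have h5 : Real.log (g x) / Real.log (c x) ≤ 1 := (div_le_one hx).2 hg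
    have h6 : 1 - δ / 2 ≤ Real.log (g x) / Real.log (c x) := by
      rw [le_div_iff₀ hx]
      linarith
    constructor <;> linarith
  · intro ht ε hε
    obtain ⟨A, hA, hgr⟩ := h.log_growth hC hw
    have hl : 0 < Real.log (5 / 4) := Real.log_pos (by norm_num)
    rw [Metric.tendsto_nhds] at ht
    have h1 := ht (ε * Real.log (5 / 4) * b / A) (by positivity)
    obtain ⟨T2, hT2⟩ := (h1.and (hpos.and (eventually_ge_atTop (max 1 T1)))).exists_forall_of_atTop
    refine ⟨T2, fun T hT => ?_⟩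
    obtain ⟨h2, h3, h4⟩ := hT2 T hT
    have hT1 : 1 ≤ T := (le_max_left _ _).trans h4
    have h5 := h.lost_le (by linarith : 0 < T)
    rw [Real.dist_eq, abs_lt] at h2
    have h6 : Real.log (c T) - Real.log (g T) ≤ ε * Real.log (5 / 4) * b / A * Real.log (c T) := by
      have h7 : 1 - ε * Real.log (5 / 4) * b / A ≤ Real.log (g T) / Real.log (c T) := by linarith [h2.1]
      rw [le_div_iff₀ h3] at h7
      linarith
    have h8 := hgr T hT1
    have h9 := hlow T ((le_max_right _ _).trans h4)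
    have h10 : ε * Real.log (5 / 4) * b / A * Real.log (c T) ≤ ε * Real.log (5 / 4) * b / A * (A * T * (1 + Real.log T)) :=
      mul_le_mul_of_nonneg_left h8 (by positivity)
    have h11 : ε * Real.log (5 / 4) * b / A * (A * T * (1 + Real.log T)) =
        ε * Real.log (5 / 4) * (b * T * (1 + Real.log T)) := by
      field_simp
    have h12 : h.cnt (fun t => m t - 1) T (2 * T) * Real.log (5 / 4) ≤ ε * Real.log (5 / 4) * h.cnt m T (2 * T) := by
      have h13 : ε * Real.log (5 / 4) * (b * T * (1 + Real.log T)) ≤ ε * Real.log (5 / 4) * h.cnt m T (2 * T) :=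
        mul_le_mul_of_nonneg_left h9 (by positivity)
      linarith
    have h14 : h.cnt (fun t => m t - 1) T (2 * T) * Real.log (5 / 4) ≤ (ε * h.cnt m T (2 * T)) * Real.log (5 / 4) := by
      linarith
    exact le_of_mul_le_mul_right h14 hl

end Pool.Agent.Run7.h833.SG.Dat
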