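import Pool.Agent.Run7.h833.SF.D
import Pool.Agent.Run7.h833.SF.E
import Pool.Agent.Run7.h833.SG.C
import Pool.Agent.H370R2.Count

/-! # The limit of the ground states on the real line and the products over the zeros -/

set_option autoImplicit false
set_option linter.unusedSectionVars false
set_option maxHeartbeats 2000000

open Complex Filter Topology Set MeasureTheory
open scoped ComplexConjugate

namespace Pool.Agent.Y23.G.CA

variable [K : Win] [L : LFun]

variable {e : ℝ → ℝ → ℂ} {N : ℝ → ℕ} {w1 : ℝ → ℂ}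

theorem one_dat (hsym : Sym (zd (L := L))) (hg : Gen e N w1) (hno : NoZ K L) (hfe : ∀ s, L.X (1 - s) = L.X s)
    (hgr : ∃ A : ℝ, ∀ w, ‖L.X (1 / 2 + w)‖ ≤ Real.exp (A * (1 + ‖w‖) ^ (3 / 2 : ℝ)))
    (hexp : ¬ ∃ C A : ℝ, ∀ w : ℂ, ‖L.X (1 / 2 + w)‖ ≤ C * Real.exp (A * ‖w‖))
    {f : ℂ → ℂ} (hfd : Differentiable ℂ f) (hfs : ∀ x, f (conj x) = conj (f x))
    (hfg : ∃ K : ℝ, ∀ x, ‖f x‖ ≤ Real.exp (K * (1 + ‖x‖) ^ (3 / 4 : ℝ))) (hfX : ∀ w, L.X (1 / 2 + w) = f (w ^ 2))
    (hG : ∀ ρ : Zt, (ρ : ℂ).re = 1 / 2) :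
    ∃ g c : ℝ → ℝ, (∀ x : ℝ, Tendsto (fun a => EE e a x / EE e a (1 / 2)) atTop (𝓝 (g x : ℂ)) ∧
      L.X x / L.X (1 / 2) = (c x : ℂ)) ∧
      Run7.h833.SG.Dat {t : ℝ | 0 < t ∧ L.X (1 / 2 + t * I) = 0} (fun t => analyticOrderNatAt L.X (1 / 2 + t * I))
        (fun y => c (1 / 2 + y)) (fun y => g (1 / 2 + y)) ∧
      ∀ t ∈ {t : ℝ | 0 < t ∧ L.X (1 / 2 + t * I) = 0}, 1 ≤ analyticOrderNatAt L.X (1 / 2 + t * I) := by
  classical
  have hX0 : L.X (1 / 2) ≠ 0 := by
    have := hno 0 (by rw [abs_zero]; exact K.pos.le)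
    simpa using this
  obtain ⟨g, c, h⟩ := one_point hsym hg hno hfe hgr hexp hfd hfs hfg hfX hG
  set X : ℂ → ℂ := fun w => L.X (1 / 2 + w) with hXdef
  have hXd : Differentiable ℂ X := Xd.comp (by fun_prop)
  have hXan : AnalyticOnNhd ℂ L.X Set.univ := fun z _ => (Xd (L := L)).analyticAt z
  have hre : ∀ z, X z = 0 → z.re = 0 := by
    intro z hz
    have h1 := hG ⟨1 / 2 + z, hz⟩
    simpa using h1
  have hXn : X 0 ≠ 0 := by
    simp only [hXdef, add_zero]
    exact hX0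
  have hcl : Run7.h833.SF.Cl f := by
    refine ⟨hfd, ?_, hfs, hfg, fun x hx => ?_⟩
    · have := hfX 0
      rw [add_zero, zero_pow two_ne_zero] at this
      rw [← this]
      exact hX0
    · obtain ⟨w, hw'⟩ := IsAlgClosed.exists_pow_nat_eq x (n := 2) (by norm_num)
      have hw : x = w ^ 2 := hw'.symm
      have h1 : X w = 0 := by
        simp only [hXdef]
        rw [hfX, ← hw, hx]
      have h2 := hre w h1
      have h3 : w ≠ 0 := by
        rintro rfl
        exact hXn h1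
      have h4 : w = w.im * I := by apply Complex.ext <;> simp [h2]
      have h5 : w.im ≠ 0 := by
        intro h
        rw [h, Complex.ofReal_zero, zero_mul] at h4
        exact h3 h4
      have h6 : x = ((-(w.im ^ 2) : ℝ) : ℂ) := by
        rw [hw, h4, mul_pow, I_sq]
        push_cast
        simp
      rw [h6]
      refine ⟨Complex.ofReal_im _, ?_⟩
      rw [Complex.ofReal_re]
      have := pow_pos (abs_pos.2 h5) 2
      rw [sq_abs] at this
      linarith
  -- orders are finite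
  have hord : ∀ s, analyticOrderAt L.X s ≠ ⊤ := by
    intro s hs
    rw [analyticOrderAt_eq_top] at hs
    have h1 := hXan.eqOn_zero_of_preconnected_of_eventuallyEq_zero isPreconnected_univ (Set.mem_univ s) hs
      (Set.mem_univ (1 / 2 : ℂ))
    exact hX0 h1
  have hordX : ∀ t : ℝ, analyticOrderAt X (t * I) = analyticOrderAt L.X (1 / 2 + t * I) := by
    intro t
    have h2 := analyticOrderAt_comp_of_deriv_ne_zero (f := L.X) (g := fun w : ℂ => 1 / 2 + w) (z₀ := (t : ℂ) * I)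
      (by fun_prop) (by
        have : HasDerivAt (fun w : ℂ => 1 / 2 + w) 1 ((t : ℂ) * I) := (hasDerivAt_id _).const_add _
        rw [this.deriv]
        exact one_ne_zero)
    exact h2
  set S : Set ℝ := {t : ℝ | 0 < t ∧ L.X (1 / 2 + t * I) = 0} with hS
  set m : ℝ → ℕ := fun t => analyticOrderNatAt L.X (1 / 2 + t * I) with hm
  have hmcast : ∀ t : ℝ, (m t : ℕ∞) = analyticOrderAt L.X (1 / 2 + t * I) := fun t =>
    Nat.cast_analyticOrderNatAt (hord _)
  have hm1 : ∀ t ∈ S, 1 ≤ m t := by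
    intro t ht
    rw [Nat.one_le_iff_ne_zero]
    intro h0
    have h1 := hmcast t
    rw [h0, Nat.cast_zero, eq_comm, ((Xd (L := L)).analyticAt _).analyticOrderAt_eq_zero] at h1
    exact h1 ht.2
  refine ⟨g, c, fun x => ⟨(h x).1, (h x).2.1⟩, ?_, hm1⟩
  have hsub : ∀ x : ℝ, (1 / 2 + x - 1 / 2 : ℝ) = x := fun x => by ring
  have hgl : ∀ x : ℝ, ∀ F : Finset ℝ, (∀ t ∈ F, t ∈ S) → ∏ t ∈ F, (1 + x ^ 2 / t ^ 2) ≤ g (1 / 2 + x) ∧
      g (1 / 2 + x) * ∏ t ∈ F, (1 + x ^ 2 / t ^ 2) ^ (m t - 1) ≤ c (1 / 2 + x) := by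
    intro x F hF
    obtain ⟨h1, h2⟩ := (h (1 / 2 + x)).2.2.2 F hF
    rw [hsub] at h1 h2
    exact ⟨h1, h2 m fun t _ => (hmcast t).le⟩
  refine ⟨fun t ht => ht.1, ?_, ?_, ?_, fun x _ F hF => (hgl x F hF).1, fun x _ F hF => (hgl x F hF).2⟩
  · -- finiteness
    intro T
    have h1 : {p : ℂ | X p = 0 ∧ ‖p‖ ≤ T}.Finite := by
      have h2 : IsCompact (Metric.closedBall (0 : ℂ) T) := isCompact_closedBall _ _
      have h3 : AnalyticOnNhd ℂ X Set.univ := fun z _ => hXd.analyticAt z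
      have h4 := h3.preimage_zero_mem_codiscrete (x := 0) hXn
      have h5 : Metric.closedBall (0 : ℂ) T \ (X ⁻¹' {0}ᶜ) = {p : ℂ | X p = 0 ∧ ‖p‖ ≤ T} := by
        ext p
        simp [and_comm]
      rw [← h5]
      exact h2.finite_sdiff_of_mem_codiscreteWithin (codiscreteWithin_mono (subset_univ _) h4)
    have h2 := h1.preimage (f := fun t : ℝ => (t : ℂ) * I) (fun t _ t' _ he => by
      have h3 : (t : ℂ) * I = (t' : ℂ) * I := he
      exact_mod_cast mul_right_cancel₀ Complex.I_ne_zero h3)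
    refine h2.subset fun t ht => ?_
    obtain ⟨⟨h3, h4⟩, h5⟩ := ht
    refine ⟨h4, ?_⟩
    show ‖(t : ℂ) * I‖ ≤ T
    rw [norm_mul, Complex.norm_I, mul_one, Complex.norm_real, Real.norm_eq_abs, abs_of_pos h3]
    exact h5
  · intro x hx F hF
    obtain ⟨h1, h2⟩ := hgl x F hF
    refine le_trans ?_ h2
    have h3 : ∏ t ∈ F, (1 + x ^ 2 / t ^ 2) ^ m t = (∏ t ∈ F, (1 + x ^ 2 / t ^ 2)) * ∏ t ∈ F, (1 + x ^ 2 / t ^ 2) ^ (m t - 1) := by
      rw [← Finset.prod_mul_distrib]
      refine Finset.prod_congr rfl fun t ht => ?_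
      rw [← pow_succ', Nat.sub_add_cancel (hm1 t (hF t ht))]
    rw [h3]
    exact mul_le_mul_of_nonneg_right h1 (Finset.prod_nonneg fun t _ => by positivity)
  · intro x hx ε hε
    obtain ⟨F, hF, h1⟩ := Run7.h833.SF.even_upper (X := X) hcl hfX (fun t _ => by rw [hordX]; exact hord _) x hε
    refine ⟨F, fun t ht => hF t ht, ?_⟩
    have h2 := (h (1 / 2 + x)).2.1
    have h3 : ‖X x‖ = |c (1 / 2 + x)| * ‖X 0‖ := by
      have e1 : X x = L.X ((1 / 2 + x : ℝ) : ℂ) := by
        simp only [hXdef]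
        push_cast
        rfl
      have e2 : X 0 = L.X (1 / 2) := by simp only [hXdef, add_zero]
      rw [e1, e2]
      rw [div_eq_iff hX0] at h2
      rw [h2, norm_mul, Complex.norm_real, Real.norm_eq_abs]
    rw [h3] at h1
    have h4 : 0 < ‖X 0‖ := norm_pos_iff.2 hXn
    have h5 : |c (1 / 2 + x)| ≤ (1 + ε) * ∏ t ∈ F, (1 + x ^ 2 / t ^ 2) ^ analyticOrderNatAt X (t * I) := by
      refine le_of_mul_le_mul_right ?_ h4
      refine h1.trans (le_of_eq ?_)
      ring
    refine (le_abs_self _).trans (h5.trans (le_of_eq ?_))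
    congr 1
    refine Finset.prod_congr rfl fun t _ => ?_
    congr 1
    simp only [hm, analyticOrderNatAt]
    rw [hordX]

end Pool.Agent.Y23.G.CA

namespace Pool.Agent.Run7.h833.SG

open H370

/-- the counts of the zeros of `F` in dyadic intervals -/
theorem cnt_eq {F : ℂ → ℂ} {S : Set ℝ} {m : ℝ → ℕ} {c g : ℝ → ℝ} (h : Dat S m c g)
    (hline : ∀ s : ℂ, 0 < s.re → s.re < 1 → 0 < s.im → F s = 0 → s.re = 1 / 2)
    (hS : ∀ t : ℝ, t ∈ S ↔ 0 < t ∧ F (1 / 2 + t * I) = 0)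
    (hm : ∀ t ∈ S, m t = mult F (1 / 2 + t * I)) (hm1 : ∀ t ∈ S, 1 ≤ m t) {A B : ℝ} (hA : 0 ≤ A) :
    h.cnt m A B = (NN F A B : ℝ) ∧ h.cnt (fun t => m t - 1) A B = (NN F A B : ℝ) - (Nd F A B : ℝ) := by
  classical
  set φ : ℝ → ℂ := fun t => 1 / 2 + t * I with hφ
  have hinj : Function.Injective φ := by
    intro t t' h1
    have := congrArg Complex.im h1
    simpa [hφ] using this
  have hz : zset F A B = ((h.blk A B).image φ : Finset ℂ) := by
    ext s
    simp only [zset, Set.mem_ofPred_eq, Finset.coe_image, Set.mem_image, Finset.mem_coe, h.mem_blk]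
    constructor
    · rintro ⟨h1, h2, h3, h4, h5⟩
      have h6 := hline s h1 h2 (hA.trans_lt h3) h5
      have h7 : φ s.im = s := by apply Complex.ext <;> simp [hφ, h6]
      refine ⟨s.im, ⟨(hS _).2 ⟨hA.trans_lt h3, ?_⟩, h3, h4⟩, h7⟩
      have : (1 / 2 + (s.im : ℂ) * I) = s := h7
      rw [this]
      exact h5
    · rintro ⟨t, ⟨h1, h2, h3⟩, rfl⟩
      have h4 := (hS t).1 h1
      refine ⟨by simp [hφ], by simp [hφ]; norm_num, by simpa [hφ] using h2, by simpa [hφ] using h3, h4.2⟩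
  have h1 : NN F A B = ∑ t ∈ h.blk A B, m t := by
    unfold NN
    rw [hz, finsum_mem_coe_finset, Finset.sum_image fun t _ t' _ he => hinj he]
    exact Finset.sum_congr rfl fun t ht => (hm t ((h.mem_blk).1 ht).1).symm
  have h2 : Nd F A B = (h.blk A B).card := by
    unfold Nd
    rw [hz, Set.ncard_coe_finset, Finset.card_image_of_injective _ hinj]
  have h3 : h.cnt m A B = (NN F A B : ℝ) := by
    rw [h1]
    unfold Dat.cnt
    push_cast
    rfl
  refine ⟨h3, ?_⟩
  rw [← h3, h2]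
  unfold Dat.cnt
  rw [Finset.card_eq_sum_ones, Nat.cast_sum, ← Finset.sum_sub_distrib]
  refine Finset.sum_congr rfl fun t ht => ?_
  rw [Nat.cast_sub (hm1 t ((h.mem_blk).1 ht).1)]

/-- the number of zeros in dyadic intervals -/
theorem nn_bounds {F : ℂ → ℂ} (hF : GoodL F) :
    (∃ C : ℝ, 0 ≤ C ∧ ∀ T : ℝ, 1 ≤ T → (NN F T (2 * T) : ℝ) ≤ C * T * (1 + Real.log T)) ∧
    ∃ b T1 : ℝ, 0 < b ∧ ∀ T : ℝ, T1 ≤ T → b * T * (1 + Real.log T) ≤ (NN F T (2 * T) : ℝ) := by
  obtain ⟨C, T0, hC, hT0, h⟩ := nn_asymp hF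
  have hpi := Real.pi_pos
  have h3 := Real.pi_gt_three
  have h4 := Real.pi_lt_four
  constructor
  · -- small `T`
    have hT0' : 1 ≤ max T0 1 := le_max_right _ _
    set B : ℝ := ((NN F 1 (2 * max T0 1) : ℕ) : ℝ) with hB
    refine ⟨B + C + 1, by positivity, fun T hT => ?_⟩
    have hl : 0 ≤ Real.log T := Real.log_nonneg hT
    have hB0 : 0 ≤ B := Nat.cast_nonneg _
    rcases le_or_gt T0 T with h1 | h1
    · have h2 := (abs_le.1 (h T h1 T (2 * T) le_rfl (by linarith) (by linarith) le_rfl)).2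
      have h5 : T * Real.log T / (2 * Real.pi) ≤ T * Real.log T := by
        rw [div_le_iff₀ (by positivity)]
        have : 0 ≤ T * Real.log T := by positivity
        nlinarith
      have h6 : 0 ≤ B * T * (1 + Real.log T) := by positivity
      have h7 : 0 ≤ C * T * Real.log T := by positivity
      nlinarith
    · have h2 : NN F T (2 * T) ≤ NN F 1 (2 * max T0 1) :=
        NN_mono hF le_rfl hT (by have := le_max_left T0 1; linarith)
      have h5 : (NN F T (2 * T) : ℝ) ≤ B := Nat.cast_le.2 h2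
      have h6 : B ≤ B * T * (1 + Real.log T) := by
        have : 1 ≤ T * (1 + Real.log T) := by nlinarith
        nlinarith
      have h7 : 0 ≤ (C + 1) * T * (1 + Real.log T) := by positivity
      nlinarith
  · have hlog : ∀ᶠ T : ℝ in atTop, 16 * Real.pi * (C + 1) + 1 ≤ Real.log T := Real.tendsto_log_atTop.eventually_ge_atTop _
    obtain ⟨T2, hT2⟩ := hlog.exists_forall_of_atTop
    refine ⟨1 / (8 * Real.pi), max (max T0 T2) 1, by positivity, fun T hT => ?_⟩
    have hT' : T0 ≤ T := (le_max_left _ _).trans ((le_max_left _ _).trans hT)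
    have hT1 : 1 ≤ T := (le_max_right _ _).trans hT
    have h1 := hT2 T ((le_max_right _ _).trans ((le_max_left _ _).trans hT))
    have h2 := (abs_le.1 (h T hT' T (2 * T) le_rfl (by linarith) (by linarith) le_rfl)).1
    have h5 : 1 / (8 * Real.pi) * T * (1 + Real.log T) + C * T ≤ T * Real.log T / (2 * Real.pi) := by
      rw [le_div_iff₀ (by positivity)]
      have e1 : (1 / (8 * Real.pi) * T * (1 + Real.log T) + C * T) * (2 * Real.pi) =
          T * (1 + Real.log T) / 4 + 2 * Real.pi * C * T := by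
        field_simp
        ring
      rw [e1]
      have h6 : 0 ≤ 16 * Real.pi * C := by positivity
      have h7 : 1 + 8 * Real.pi * C ≤ 3 * Real.log T := by nlinarith
      have h8 : (1 + 8 * Real.pi * C) * T ≤ 3 * Real.log T * T := mul_le_mul_of_nonneg_right h7 (by linarith)
      linarith
    linarith

end Pool.Agent.Run7.h833.SG
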