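import Mathlib

/-! # The minimisers of a quadratic form relative to the mass on a window: definitions in the variable `s` -/

set_option autoImplicit false

open Complex Filter Topology Set MeasureTheory

namespace Pool.Agent.Run7.h833.SG.T

/-- The Mellin transform of `f` in the logarithmic variable, centred at `1/2`. -/
noncomputable def M (f : ℝ → ℂ) (s : ℂ) : ℂ := ∫ x : ℝ, f x * cexp ((s - 1 / 2) * x)

/-- The form domain: `f` is square integrable, vanishes off `[-a, a]`, and its transform on the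
critical line is square integrable against the logarithmic weight. -/
def InDom (a : ℝ) (f : ℝ → ℂ) : Prop := MemLp f 2 volume ∧ (∀ x : ℝ, a < |x| → f x = 0) ∧
  Integrable fun t : ℝ => Real.log (3 + |t|) * ‖M f (1 / 2 + t * I)‖ ^ 2

/-- The mass of the transform on the window `|t| ≤ k` of the critical line. -/
noncomputable def Mass (k : ℝ) (f : ℝ → ℂ) : ℝ := ∫ t in Set.Icc (-k) k, ‖M f (1 / 2 + t * I)‖ ^ 2

/-- The infimum of the form `W a` on the functions of mass one. -/
noncomputable def low (W : ℝ → (ℝ → ℂ) → ℝ) (k a : ℝ) : ℝ :=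
  sInf {r : ℝ | ∃ f : ℝ → ℂ, InDom a f ∧ Mass k f = 1 ∧ W a f = r}

/-- `f` minimises `W a / Mass k`, or its mass and its form vanish. -/
def Minimiser (W : ℝ → (ℝ → ℂ) → ℝ) (k a : ℝ) (f : ℝ → ℂ) : Prop := InDom a f ∧ W a f = low W k a * Mass k f

/-- For every `a > 0` the number `low W k a` is a lower bound of `W a / Mass k`, and the transforms of the
minimisers are the products of one entire function `E a`, whose zeros are simple and on the critical line,
with the polynomials of degree less than `d a`, `d a ≥ 1`. -/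
structure Ground (W : ℝ → (ℝ → ℂ) → ℝ) (k : ℝ) (E : ℝ → ℂ → ℂ) (d : ℝ → ℕ) : Prop where
  low_le : ∀ a : ℝ, 0 < a → ∀ f, InDom a f → low W k a * Mass k f ≤ W a f
  entire : ∀ a : ℝ, 0 < a → Differentiable ℂ (E a)
  nonzero : ∀ a : ℝ, 0 < a → ∃ s, E a s ≠ 0
  zeros : ∀ a : ℝ, 0 < a → ∀ s, E a s = 0 → s.re = 1 / 2 ∧ deriv (E a) s ≠ 0
  pos : ∀ a : ℝ, 0 < a → 0 < d a
  multiples : ∀ a : ℝ, 0 < a → ∀ p : Polynomial ℂ, p.natDegree < d a → ∃ f, Minimiser W k a f ∧ ∀ s, M f s = p.eval s * E a s
  minimisers : ∀ a : ℝ, 0 < a → ∀ f, Minimiser W k a f →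
    ∃ p : Polynomial ℂ, p.natDegree < d a ∧ ∀ s, M f s = p.eval s * E a s

end Pool.Agent.Run7.h833.SG.T
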