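import Pool.Agent.Run7.h833.SG.D
import Pool.Agent.Run7.h833.SG.Def
import Pool.Agent.Run7.h114.CA.Port
import Pool.Agent.Run7.h114.CA.P6a

/-! # The limit of the ground states on the real line, for every L-function with real coefficients -/

set_option autoImplicit false
set_option linter.unusedSectionVars false
set_option maxHeartbeats 2000000

open Complex Filter Topology Set MeasureTheory
open scoped ComplexConjugate

namespace Pool.Agent.Run7.h833.SG.T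

open Y23.G Y23.G.CA

lemma M_eq (f : ℝ → ℂ) (s : ℂ) : M f s = Y23.TT f (s - 1 / 2) := rfl

lemma M_line (f : ℝ → ℂ) (t : ℝ) : M f (1 / 2 + t * I) = Y23.TT f (t * I) := by
  rw [M_eq]; congr 1; ring

lemma inDom_iff (a : ℝ) (f : ℝ → ℂ) : InDom a f ↔ Hd a f := by
  unfold InDom Hd Y23.Fa Lg
  simp only [M_line, and_assoc]

lemma Mass_eq [K : Win] (f : ℝ → ℂ) : Mass K.k f = NH f := by
  unfold Mass NH wi
  simp only [M_line]

variable (K : Win) (L : LFun) (W : ℝ → (ℝ → ℂ) → ℝ)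

/-- all zeros on the critical line -/
def OnLine (X : ℂ → ℂ) : Prop := ∀ s : ℂ, X s = 0 → s.re = 1 / 2

/-- all zeros simple -/
def Simple (X : ℂ → ℂ) : Prop := ∀ s : ℂ, X s = 0 → deriv X s ≠ 0

/-- growth of the function of the square -/
lemma sq_growth {X f : ℂ → ℂ} (hX : ∃ A : ℝ, ∀ w : ℂ, ‖X w‖ ≤ Real.exp (A * (1 + ‖w‖) ^ (3 / 2 : ℝ)))
    (hf : ∀ w, X w = f (w ^ 2)) : ∃ K : ℝ, ∀ x, ‖f x‖ ≤ Real.exp (K * (1 + ‖x‖) ^ (3 / 4 : ℝ)) := by
  obtain ⟨A, hA⟩ := hX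
  refine ⟨|A| * 2, fun x => ?_⟩
  obtain ⟨w, hw⟩ := IsAlgClosed.exists_pow_nat_eq x (n := 2) (by norm_num)
  have h1 := hA w
  rw [hf, hw] at h1
  refine h1.trans (Real.exp_le_exp.2 ?_)
  have h2 : ‖x‖ = ‖w‖ ^ 2 := by rw [← hw, norm_pow]
  have h3 : (1 + ‖w‖) ^ 2 ≤ 2 * (1 + ‖x‖) := by
    rw [h2]
    nlinarith [sq_nonneg (1 - ‖w‖)]
  have h4 : (1 + ‖w‖) ^ (3 / 2 : ℝ) = ((1 + ‖w‖) ^ 2) ^ (3 / 4 : ℝ) := by
    rw [← Real.rpow_natCast, ← Real.rpow_mul (by positivity)]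
    norm_num
  have h5 : ((1 + ‖w‖) ^ 2) ^ (3 / 4 : ℝ) ≤ 2 * (1 + ‖x‖) ^ (3 / 4 : ℝ) := by
    refine (Real.rpow_le_rpow (by positivity) h3 (by norm_num)).trans ?_
    rw [Real.mul_rpow (by norm_num) (by positivity)]
    refine mul_le_mul_of_nonneg_right ?_ (by positivity)
    calc (2 : ℝ) ^ (3 / 4 : ℝ) ≤ 2 ^ (1 : ℝ) := Real.rpow_le_rpow_of_exponent_le (by norm_num) (by norm_num)
      _ = 2 := Real.rpow_one 2
  rw [h4]
  calc A * ((1 + ‖w‖) ^ 2) ^ (3 / 4 : ℝ) ≤ |A| * ((1 + ‖w‖) ^ 2) ^ (3 / 4 : ℝ) :=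
        mul_le_mul_of_nonneg_right (le_abs_self A) (by positivity)
    _ ≤ |A| * (2 * (1 + ‖x‖) ^ (3 / 4 : ℝ)) := mul_le_mul_of_nonneg_left h5 (abs_nonneg A)
    _ = _ := by ring

/-- the general theorem -/
theorem pack (hfe : ∀ s, L.X (1 - s) = L.X s) (hcj : ∀ s, L.X (conj s) = conj (L.X s)) (hno : NoZ K L)
    (hW : ∀ a : ℝ, 0 < a → ∀ f, InDom a f → W a f = QQ (D := zd (L := L)) f) : ∃ (E : ℝ → ℂ → ℂ) (d : ℝ → ℕ),
    Ground W K.k E d ∧
    (OnLine L.X ↔ Tendsto (low W K.k) atTop (𝓝 0)) ∧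
    (∀ x : ℝ, x ≠ 0 → (OnLine L.X ∧ Simple L.X ↔ Tendsto (low W K.k) atTop (𝓝 0) ∧
      Tendsto (fun a => E a (1 / 2 + x) / E a (1 / 2)) atTop (𝓝 (L.X (1 / 2 + x) / L.X (1 / 2))))) ∧
    (OnLine L.X → ∃ g c : ℝ → ℝ,
      (∀ x : ℝ, Tendsto (fun a => E a (1 / 2 + x) / E a (1 / 2)) atTop (𝓝 (g x : ℂ))) ∧
      (∀ x : ℝ, L.X (1 / 2 + x) / L.X (1 / 2) = (c x : ℂ)) ∧
      (∀ x : ℝ, x ≠ 0 → 1 < g x ∧ g x ≤ c x ∧ (g x = c x ↔ Simple L.X)) ∧
      Dat {t : ℝ | 0 < t ∧ L.X (1 / 2 + t * I) = 0} (fun t => analyticOrderNatAt L.X (1 / 2 + t * I)) c g ∧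
      ∀ t ∈ {t : ℝ | 0 < t ∧ L.X (1 / 2 + t * I) = 0}, 1 ≤ analyticOrderNatAt L.X (1 / 2 + t * I)) := by
  obtain ⟨e, Ne, w1, hg⟩ := exists_gen (K := K) (L := L)
  have hsym : Sym (zd (L := L)) := sym_of_fe hfe
  have hX0 : L.X (1 / 2) ≠ 0 := by
    have := hno 0 (by rw [abs_zero]; exact K.pos.le)
    simpa using this
  have hgr := X_growth (L := L)
  have hlow : ∀ a : ℝ, 0 < a → low W K.k a = CA.GM (K := K) (DZ := zd (L := L)) a := by
    intro a ha
    unfold low CA.GM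
    congr 1
    ext r
    constructor
    · rintro ⟨f, hf, h1, h2⟩
      exact ⟨f, (inDom_iff a f).1 hf, by rw [← Mass_eq, h1], by rw [← hW a ha f hf, h2]⟩
    · rintro ⟨f, hf, h1, h2⟩
      have hf' := (inDom_iff a f).2 hf
      exact ⟨f, hf', by rw [Mass_eq, h1], by rw [hW a ha f hf', h2]⟩
  have hmin : ∀ a : ℝ, 0 < a → ∀ f, InDom a f → (Minimiser W K.k a f ↔ CA.KK (K := K) (DZ := zd (L := L)) a f) := by
    intro a ha f hf
    have hf1 := (inDom_iff a f).1 hf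
    rw [CA.KK_iff (K := K) (DZ := zd (L := L)) hf1]
    unfold Minimiser
    rw [Mass_eq, hW a ha f hf, hlow a ha]
    exact ⟨fun h => h.2, fun h => ⟨hf, h⟩⟩
  have hRHlim : OnLine L.X ↔ Tendsto (low W K.k) atTop (𝓝 0) := by
    have h1 := lim_iff (K := K) (L := L) hX0
    have h2 : Tendsto (low W K.k) atTop (𝓝 0) ↔ Tendsto (fun a => CA.GM (K := K) (DZ := zd (L := L)) a) atTop (𝓝 0) := by
      refine tendsto_congr' ?_
      filter_upwards [eventually_gt_atTop 0] with a ha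
      exact hlow a ha
    rw [h2, h1]
    have h3 : OnLine L.X ↔ ∀ ρ : Zt (D := zd (L := L)), (ρ : ℂ).re = 1 / 2 := rh_iff'.symm
    rw [h3, CA.pos_iff]
  have hline : OnLine L.X ↔ ∀ ρ : Zt (D := zd (L := L)), (ρ : ℂ).re = 1 / 2 := rh_iff'.symm
  obtain ⟨f, hfd, hfX⟩ := Run7.h114.CA.exists_sq (E := fun w => L.X (1 / 2 + w)) (Xd.comp (by fun_prop)) (fun w => by
    have := hfe (1 / 2 + w)
    show L.X (1 / 2 + -w) = L.X (1 / 2 + w)
    rw [← this]
    congr 1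
    ring)
  have hfs : ∀ x, f (conj x) = conj (f x) := by
    intro x
    obtain ⟨w, hw⟩ := IsAlgClosed.exists_pow_nat_eq x (n := 2) (by norm_num)
    rw [← hw, ← hfX, map_pow, ← hfX]
    show L.X (1 / 2 + conj w) = conj (L.X (1 / 2 + w))
    have h12 : conj (1 / 2 : ℂ) = 1 / 2 := by rw [map_div₀, map_one, map_ofNat]
    rw [← hcj, map_add, h12]
  have hfg := sq_growth (X := fun w => L.X (1 / 2 + w)) hgr hfX
  have hcore : OnLine L.X → _ := fun hRH =>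
    one_point (K := K) (L := L) (f := f) hsym hg hno hfe hgr X_not_exp hfd hfs hfg hfX (hline.1 hRH)
  have hdat : OnLine L.X → _ := fun hRH =>
    one_dat (K := K) (L := L) (f := f) hsym hg hno hfe hgr X_not_exp hfd hfs hfg hfX (hline.1 hRH)
  have hcast : ∀ x : ℝ, (((1 / 2 + x : ℝ)) : ℂ) = 1 / 2 + (x : ℂ) := fun x => by push_cast; rfl
  refine ⟨EE e, fun a => Ne a + 1, ⟨fun a ha f hf => ?_, fun a ha => (structureE hsym hg ha).1,
    fun a ha => (structureE hsym hg ha).2.1, fun a ha => (structureE hsym hg ha).2.2.2.2.1, fun a _ => Nat.succ_pos _,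
    fun a ha p hp => ?_, fun a ha f hf => ?_⟩, hRHlim, fun x hx => ?_, fun hRH => ?_⟩
  · have h1 := CA.bq_nonneg (K := K) (DZ := zd (L := L)) ha ((inDom_iff a f).1 hf)
    unfold CA.bq at h1
    rw [hlow a ha, Mass_eq, hW a ha f hf]
    linarith
  · obtain ⟨g, hgK, hgp⟩ := (hg.gd a ha).poly ha (p.comp (Polynomial.X + Polynomial.C (1 / 2))) (by
      have hp' : p.natDegree < Ne a + 1 := hp
      rw [Polynomial.natDegree_comp, Polynomial.natDegree_X_add_C]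
      omega)
    have hgd : InDom a g := (inDom_iff a g).2 hgK.1
    refine ⟨g, (hmin a ha g hgd).2 hgK, fun s => ?_⟩
    have h1 := hgp (s - 1 / 2)
    rw [Polynomial.eval_comp] at h1
    simp only [Polynomial.eval_add, Polynomial.eval_X, Polynomial.eval_C, sub_add_cancel] at h1
    exact h1
  · have hf1 : InDom a f := hf.1
    have h1 := (hmin a ha f hf1).1 hf
    exact ((structureE hsym hg ha).2.2.2.2.2 f ((inDom_iff a f).1 hf1)).1 h1
  · have hx' : (1 / 2 + x : ℝ) ≠ 1 / 2 := by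
      intro h
      exact hx (by linarith)
    constructor
    · rintro ⟨hRH, hs⟩
      refine ⟨hRHlim.1 hRH, ?_⟩
      have h6 := (equiv_simple hsym hg hno hfe hgr).1 ⟨hline.1 hRH, hs⟩
      exact (tendstoLocallyUniformlyOn_univ.2 h6).tendsto_at (Set.mem_univ (1 / 2 + x : ℂ))
    · rintro ⟨h1, h2⟩
      have hRH := hRHlim.2 h1
      refine ⟨hRH, ?_⟩
      obtain ⟨g, c', h⟩ := hcore hRH
      obtain ⟨h3, h4, h5, _⟩ := h (1 / 2 + x)
      refine (h5 hx').2.1 ?_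
      rw [hcast] at h3 h4
      rw [h4] at h2
      exact_mod_cast tendsto_nhds_unique h3 h2
  · obtain ⟨g, c', h⟩ := hcore hRH
    obtain ⟨g2, c2, h2, hD, hm1⟩ := hdat hRH
    have hg2 : ∀ x, g2 x = g x := fun x => by exact_mod_cast tendsto_nhds_unique (h2 x).1 (h x).1
    have hc2 : ∀ x, c2 x = c' x := fun x => by
      have h3 := (h2 x).2
      rw [(h x).2.1] at h3
      exact_mod_cast h3.symm
    have hgg : (fun y => g2 (1 / 2 + y)) = fun y => g (1 / 2 + y) := funext fun y => hg2 _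
    have hccf : (fun y => c2 (1 / 2 + y)) = fun y => c' (1 / 2 + y) := funext fun y => hc2 _
    rw [hgg, hccf] at hD
    refine ⟨fun x => g (1 / 2 + x), fun x => c' (1 / 2 + x), fun x => ?_, fun x => ?_, fun x hx => ?_, hD, hm1⟩
    · have := (h (1 / 2 + x)).1
      rw [hcast] at this
      exact this
    · have := (h (1 / 2 + x)).2.1
      rw [hcast] at this
      exact this
    · have hx' : (1 / 2 + x : ℝ) ≠ 1 / 2 := by
        intro h
        exact hx (by linarith)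
      obtain ⟨_, _, h3, h4⟩ := h (1 / 2 + x)
      have h5 := h4 ∅ (fun t ht => absurd ht (Finset.notMem_empty t))
      have h6 := h5.2 (fun _ => 0) (fun t ht => absurd ht (Finset.notMem_empty t))
      rw [Finset.prod_empty, mul_one] at h6
      exact ⟨(h3 hx').1, h6, (h3 hx').2⟩

end Pool.Agent.Run7.h833.SG.T
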