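import Pool.Agent.Run7.h833.SG.E
import Pool.Agent.Run7.h114.CA.Dual
import Pool.Agent.W355.UN.Inst

/-! # Primitive Dirichlet characters as L-functions of the class `LFun` -/

set_option autoImplicit false
set_option maxHeartbeats 2000000

open Complex Filter Topology Set MeasureTheory
open scoped ComplexConjugate

namespace Pool.Agent.Run7.h833.SG.DL

open Pool.Agent.TH839.NA Pool.Agent.W355.UN Pool.Agent.W355.LJ Run7.h114.CA.Dual

variable {N : ℕ} [NeZero N] (χ : DirichletCharacter ℂ N)

omit [NeZero N] in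
lemma parD_cases : parD χ = 0 ∨ parD χ = 1 := by
  unfold parD
  split_ifs
  · exact Or.inl rfl
  · exact Or.inr rfl

lemma par_pos {s : ℂ} (hs : 0 < s.re) : 0 < (s + (parD χ : ℂ)).re := by
  rw [Complex.add_re, Complex.ofReal_re]
  rcases parD_cases χ with h | h <;> rw [h] <;> linarith

omit [NeZero N] in
/-- the Gamma factor -/
lemma gamma_eq {s : ℂ} : Gammaℝ (s + (parD χ : ℂ)) = χ.gammaFactor s := by
  unfold parD DirichletCharacter.gammaFactor
  split_ifs <;> simp

/-- the data of a primitive character -/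
theorem dir_data (hN : 1 < N) (hχ : χ.IsPrimitive) : ∃ X : ℂ → ℂ,
    RawT (1 / 2) 1 0 N (fun _ => (parD χ : ℂ)) (fun n => χ (n : ZMod N)) (fun n => χ (n : ZMod N)) X ∧
    (∀ s : ℂ, 0 < s.re → X s = (((N : ℝ) : ℂ) ^ (s / 2) * χ.gammaFactor s) * χ.LFunction s) ∧
    (∀ s : ℂ, X s = 0 ↔ 0 < s.re ∧ s.re < 1 ∧ χ.LFunction s = 0) ∧
    ∀ s : ℂ, 0 < s.re → analyticOrderAt X s = analyticOrderAt χ.LFunction s := by
  obtain ⟨X, h⟩ := dir_raw N χ hN hχ
  have hN0 : (0 : ℝ) < N := by exact_mod_cast (by omega : 0 < N)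
  have hNc : ((N : ℝ) : ℂ) ≠ 0 := by exact_mod_cast hN0.ne'
  have hχ1 : χ ≠ 1 := by
    rintro rfl
    have h1 := hχ
    rw [DirichletCharacter.isPrimitive_def, DirichletCharacter.conductor_one] at h1
    omega
  have hraw : Raw 1 0 N (fun _ => (parD χ : ℂ)) (fun n => χ (n : ZMod N)) (fun n => χ (n : ZMod N)) X := by
    have h1 : Raw 1 0 N (fun j => [(parD χ : ℂ)].get j) (fun n => χ (n : ZMod N)) (fun n => χ (n : ZMod N)) X := h
    have e : (fun j : Fin 1 => [(parD χ : ℂ)].get j) = fun _ => (parD χ : ℂ) := by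
      funext j
      fin_cases j
      rfl
    rwa [e] at h1
  have hX := hraw.entire
  obtain ⟨σ, hσ⟩ := hraw.eq
  have hdL : Differentiable ℂ χ.LFunction := DirichletCharacter.differentiable_LFunction hχ1
  have hgd : ∀ s : ℂ, 0 < s.re → AnalyticAt ℂ (fun z => (((N : ℝ) : ℂ) ^ (z / 2) * χ.gammaFactor z)) s := by
    intro s hs
    refine AnalyticAt.mul ?_ ?_
    · exact AnalyticAt.cpow analyticAt_const (by fun_prop) (Or.inl (by rw [Complex.ofReal_re]; exact hN0))
    · have e : (fun z : ℂ => χ.gammaFactor z) = fun z => Gammaℝ (z + (parD χ : ℂ)) := funext fun z => (gamma_eq χ).symm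
      have h1 : AnalyticAt ℂ (fun z : ℂ => Gammaℝ (z + (parD χ : ℂ))) s := by
        have h2 : AnalyticAt ℂ (fun z : ℂ => (Gammaℝ (z + (parD χ : ℂ)))⁻¹) s :=
          (differentiable_Gammaℝ_inv.comp (by fun_prop : Differentiable ℂ fun z : ℂ => z + (parD χ : ℂ))).analyticAt s
        have h3 := h2.inv (inv_ne_zero (Complex.Gammaℝ_ne_zero_of_re_pos (par_pos χ hs)))
        refine h3.congr (Eventually.of_forall fun z => ?_)
        simp
      show AnalyticAt ℂ (fun z : ℂ => χ.gammaFactor z) s
      rw [e]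
      exact h1
  have hgn : ∀ s : ℂ, 0 < s.re → (((N : ℝ) : ℂ) ^ (s / 2) * χ.gammaFactor s) ≠ 0 := by
    intro s hs
    refine mul_ne_zero ?_ ?_
    · rw [Complex.cpow_def_of_ne_zero hNc]
      exact Complex.exp_ne_zero _
    · rw [← gamma_eq]
      exact Complex.Gammaℝ_ne_zero_of_re_pos (par_pos χ hs)
  -- the identity in the right half-plane
  have hid : ∀ s : ℂ, 0 < s.re → X s = (((N : ℝ) : ℂ) ^ (s / 2) * χ.gammaFactor s) * χ.LFunction s := by
    have hU : IsPreconnected {s : ℂ | 0 < s.re} := (convex_halfSpace_re_gt 0).isPreconnected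
    have h1 : AnalyticOnNhd ℂ X {s : ℂ | 0 < s.re} := fun z _ => hX.analyticAt z
    have h2 : AnalyticOnNhd ℂ (fun s => (((N : ℝ) : ℂ) ^ (s / 2) * χ.gammaFactor s) * χ.LFunction s) {s : ℂ | 0 < s.re} :=
      fun z hz => (hgd z hz).mul (hdL.analyticAt z)
    set z0 : ℂ := ((max σ 1 + 1 : ℝ) : ℂ) with hz0
    have hz0re : z0.re = max σ 1 + 1 := Complex.ofReal_re _
    have hm1 := le_max_left σ 1
    have hm2 := le_max_right σ 1
    have h3 : X =ᶠ[𝓝 z0] fun s => (((N : ℝ) : ℂ) ^ (s / 2) * χ.gammaFactor s) * χ.LFunction s := by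
      have hopen : IsOpen {s : ℂ | max σ 1 < s.re} := isOpen_lt continuous_const Complex.continuous_re
      filter_upwards [hopen.mem_nhds (show max σ 1 < z0.re by rw [hz0re]; linarith)] with s hs
      have hs' : max σ 1 < s.re := hs
      rw [hσ s (hm1.trans hs'.le), pow_zero, one_mul, Fin.prod_univ_one, gamma_eq,
        DirichletCharacter.LFunction_eq_LSeries χ (hm2.trans_lt hs')]
    exact fun s hs => h1.eqOn_of_preconnected_of_eventuallyEq h2 hU (show 0 < z0.re by rw [hz0re]; linarith) h3 hs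
  have hzr : ∀ s : ℂ, 0 < s.re → (X s = 0 ↔ χ.LFunction s = 0) := by
    intro s hs
    rw [hid s hs, mul_eq_zero]
    exact ⟨fun h => h.resolve_left (hgn s hs), Or.inr⟩
  have hge1 : ∀ s : ℂ, 1 ≤ s.re → X s ≠ 0 := by
    intro s hs h0
    rw [hzr s (by linarith)] at h0
    exact DirichletCharacter.LFunction_ne_zero_of_one_le_re χ (Or.inl hχ1) hs h0
  refine ⟨X, ?_, hid, fun s => ?_, fun s hs => ?_⟩
  · refine ⟨hraw.hm, hraw.hr, hraw.hN, by norm_num, by norm_num, hraw.re_ge, hX, hraw.order, hraw.fe, hraw.one,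
      fun n => ?_, hraw.conv, hraw.eq⟩
    rcases Nat.eq_zero_or_pos n with rfl | hn
    · have h0 : χ ((0 : ℕ) : ZMod N) = 0 := by
        rw [Nat.cast_zero]
        have : Fact (1 < N) := ⟨hN⟩
        exact χ.map_nonunit not_isUnit_zero
      rw [h0, norm_zero]
      positivity
    · have h1 : ‖χ (n : ZMod N)‖ ≤ 1 := χ.norm_le_one _
      have h2 : (1 : ℝ) ≤ (n : ℝ) ^ (1 / 2 : ℝ) := Real.one_le_rpow (by exact_mod_cast hn) (by norm_num)
      push_cast
      linarith
  · constructor
    · intro h0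
      have h1 : 0 < s.re := by
        by_contra hs
        push Not at hs
        obtain ⟨ε, hε, hfe⟩ := hraw.fe
        have h2 := hfe s
        rw [h0] at h2
        have h3 : ε ≠ 0 := by
          intro h
          rw [h, norm_zero] at hε
          exact zero_ne_one hε
        have h4 : X (1 - conj s) = 0 := by
          rcases mul_eq_zero.1 h2.symm with h | h
          · exact absurd h h3
          · exact (map_eq_zero _).1 h
        refine hge1 (1 - conj s) ?_ h4
        rw [Complex.sub_re, Complex.one_re, Complex.conj_re]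
        linarith
      refine ⟨h1, ?_, (hzr s h1).1 h0⟩
      by_contra hs
      push Not at hs
      exact hge1 s hs h0
    · rintro ⟨h1, _, h2⟩
      exact (hzr s h1).2 h2
  · have hev : X =ᶠ[𝓝 s] fun z => (((N : ℝ) : ℂ) ^ (z / 2) * χ.gammaFactor z) * χ.LFunction z := by
      have hopen : IsOpen {s : ℂ | 0 < s.re} := isOpen_lt continuous_const Complex.continuous_re
      filter_upwards [hopen.mem_nhds hs] with z hz
      exact hid z hz
    have h3 := analyticOrderAt_mul (hgd s hs) (hdL.analyticAt s)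
    rw [(hgd s hs).analyticOrderAt_eq_zero.2 (hgn s hs), zero_add] at h3
    rw [analyticOrderAt_congr hev]
    exact h3

/-- real characters give functions which are real on the real axis -/
theorem conj_of_real {X : ℂ → ℂ} (h : RawT (1 / 2) 1 0 N (fun _ => (parD χ : ℂ)) (fun n => χ (n : ZMod N))
    (fun n => χ (n : ZMod N)) X) (hr : ∀ n : ℕ, conj (χ (n : ZMod N)) = χ (n : ZMod N)) (s : ℂ) :
    X (conj s) = conj (X s) := by
  have hN : (0 : ℝ) ≤ N := Nat.cast_nonneg N
  obtain ⟨σ, hσ⟩ := h.eq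
  have hX : Differentiable ℂ X := h.entire
  have h1 : ∀ s : ℂ, σ ≤ s.re → conj (X (conj s)) = X s := by
    intro s hs
    rw [hσ (conj s) (by rwa [Complex.conj_re]), hσ s hs]
    have h2 : conj (LSeries (fun n => χ (n : ZMod N)) (conj s)) = LSeries (fun n => χ (n : ZMod N)) s := by
      rw [← LSeries_conj]
      exact LSeries_congr (fun {n} _ => hr n) s
    rw [map_mul, h2, map_mul, map_mul, map_pow, map_mul, map_sub, map_one, Complex.conj_conj, map_prod]
    congr 2
    congr 1
    · rw [← real_cpow_conj hN, map_div₀, Complex.conj_conj, Complex.conj_ofNat]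
    · refine Finset.prod_congr rfl fun j _ => ?_
      rw [← Gammaℝ_conj, map_add, Complex.conj_conj, Complex.conj_ofReal]
  have h2 : (fun s => conj (X (conj s))) = X := by
    have hd : Differentiable ℂ fun s => conj (X (conj s)) := by
      intro z
      have h5 := (hX (conj z)).conj_conj
      rw [Complex.conj_conj] at h5
      exact h5
    refine AnalyticOnNhd.eq_of_eventuallyEq (z₀ := ((σ + 1 : ℝ) : ℂ))
      (Complex.analyticOnNhd_univ_iff_differentiable.2 hd) (Complex.analyticOnNhd_univ_iff_differentiable.2 hX) ?_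
    have hopen : IsOpen {s : ℂ | σ < s.re} := isOpen_lt continuous_const Complex.continuous_re
    filter_upwards [hopen.mem_nhds (show σ < ((σ + 1 : ℝ) : ℂ).re by rw [Complex.ofReal_re]; linarith)] with s hs
    exact h1 s (le_of_lt hs)
  have h3 : conj (X (conj s)) = X s := congrFun h2 s
  rw [← h3, Complex.conj_conj]

end Pool.Agent.Run7.h833.SG.DL
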