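import Pool.Agent.Run7.h833.SG.F
import Pool.Agent.H370R2.DirGood

/-! # Counting zeros and the growth of the limit function -/

set_option autoImplicit false
set_option maxHeartbeats 2000000

open Complex Filter Topology Set MeasureTheory
open scoped ComplexConjugate

namespace Pool.Agent.Run7.h833.SG

/-- the statements on the numbers of zeros -/
theorem counts {S : Set ℝ} {m : ℝ → ℕ} {c g : ℝ → ℝ} (hD : Dat S m c g) (hm1 : ∀ t ∈ S, 1 ≤ m t) {n d : ℝ → ℝ}
    (h1 : ∀ T : ℝ, 0 ≤ T → hD.cnt m T (2 * T) = n T) (h2 : ∀ T : ℝ, 0 ≤ T → hD.cnt (fun t => m t - 1) T (2 * T) = n T - d T)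
    (up : ∃ C : ℝ, 0 ≤ C ∧ ∀ T : ℝ, 1 ≤ T → n T ≤ C * T * (1 + Real.log T))
    (lo : ∃ b T1 : ℝ, 0 < b ∧ ∀ T : ℝ, T1 ≤ T → b * T * (1 + Real.log T) ≤ n T) :
    (∀ T : ℝ, 0 < T → (n T - d T) * Real.log (5 / 4) ≤ Real.log (c T) - Real.log (g T)) ∧
    (∀ θ : ℝ, 0 < θ → θ < 2 → ((∃ C : ℝ, ∀ T : ℝ, 1 ≤ T → n T - d T ≤ C * T ^ θ) ↔
      ∃ C : ℝ, ∀ x : ℝ, 1 ≤ x → Real.log (c x) - Real.log (g x) ≤ C * x ^ θ)) ∧
    (Tendsto (fun T => d T / n T) atTop (𝓝 1) ↔
      Tendsto (fun x => Real.log (g x) / Real.log (c x)) atTop (𝓝 1)) ∧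
    (∀ T : ℝ, 0 ≤ T → 0 ≤ n T - d T) ∧ ∀ᶠ T : ℝ in atTop, 0 < n T := by
  obtain ⟨C, hC, hup⟩ := up
  obtain ⟨b, T1, hb, hlo⟩ := lo
  have hNpos : ∀ T : ℝ, max T1 1 ≤ T → 0 < n T := by
    intro T hT
    have hT1 : 1 ≤ T := (le_max_right _ _).trans hT
    refine lt_of_lt_of_le ?_ (hlo T ((le_max_left _ _).trans hT))
    have := Real.log_nonneg hT1
    positivity
  have hLnn : ∀ T : ℝ, 0 ≤ T → 0 ≤ n T - d T := by
    intro T hT
    rw [← h2 T hT]
    exact hD.cnt_nonneg _ _ _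
  refine ⟨fun T hT => ?_, fun θ h0 h3 => ?_, ?_, hLnn, ?_⟩
  · rw [← h2 T hT.le]
    exact hD.lost_le hT
  · rw [← hD.exponent hm1 h0 h3]
    refine exists_congr fun C => forall_congr' fun T => imp_congr_right fun hT => ?_
    rw [h2 T (by linarith)]
  · have hinf : S.Infinite := by
      intro hfin
      obtain ⟨M, hM⟩ := hfin.bddAbove
      set T : ℝ := max (max T1 M) 1 with hT
      have hT1 : 1 ≤ T := le_max_right _ _
      have h3 := hlo T ((le_max_left _ _).trans (le_max_left _ _))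
      rw [← h1 T (by linarith)] at h3
      have h4 : hD.blk T (2 * T) = ∅ := by
        rw [Finset.eq_empty_iff_forall_notMem]
        intro t ht
        rw [hD.mem_blk] at ht
        have h5 := hM ht.1
        have h6 : M ≤ T := (le_max_right _ _).trans (le_max_left _ _)
        linarith [ht.2.1]
      unfold Dat.cnt at h3
      rw [h4, Finset.sum_empty] at h3
      have h5 : 0 < b * T * (1 + Real.log T) := by
        have := Real.log_nonneg hT1
        positivity
      linarith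
    have h3 := hD.little hinf hm1 hC (fun T hT => by
      rw [h1 T (by linarith)]
      exact hup T hT) hb (T1 := max T1 1) (fun T hT => by
      have hT1 : 1 ≤ T := (le_max_right _ _).trans hT
      rw [h1 T (by linarith)]
      exact hlo T ((le_max_left _ _).trans hT))
    rw [← h3, Metric.tendsto_atTop]
    constructor
    · intro hl ε hε
      obtain ⟨T0, hT0⟩ := hl ε hε
      refine ⟨max T0 (max T1 1), fun T hT => ?_⟩
      have hT2 := (le_max_right T0 _).trans hT
      have hT1 : 1 ≤ T := (le_max_right _ _).trans hT2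
      have h4 := hT0 T ((le_max_left _ _).trans hT)
      have h5 := hNpos T hT2
      rw [h1 T (by linarith), h2 T (by linarith)]
      rw [Real.dist_eq, abs_lt] at h4
      have h6 : 1 - ε ≤ d T / n T := by linarith [h4.1]
      rw [le_div_iff₀ h5] at h6
      linarith
    · intro hl ε hε
      obtain ⟨T0, hT0⟩ := hl (ε / 2) (by positivity)
      refine ⟨max T0 (max T1 1), fun T hT => ?_⟩
      have hT2 := (le_max_right T0 _).trans hT
      have hT1 : 1 ≤ T := (le_max_right _ _).trans hT2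
      have h4 := hT0 T ((le_max_left _ _).trans hT)
      have h5 := hNpos T hT2
      have h7 := hLnn T (by linarith)
      rw [h1 T (by linarith), h2 T (by linarith)] at h4
      have h6 : 1 - ε / 2 ≤ d T / n T := by
        rw [le_div_iff₀ h5]
        linarith
      have h8 : d T / n T ≤ 1 := by
        rw [div_le_one h5]
        linarith
      rw [Real.dist_eq, abs_lt]
      constructor <;> linarith
  · filter_upwards [eventually_ge_atTop (max T1 1)] with T hT
    exact hNpos T hT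

/-- simple zeros instead of distinct zeros -/
theorem counts_simple {c g : ℝ → ℝ} {n d s : ℝ → ℝ} (hs1 : ∀ T : ℝ, 0 ≤ T → n T - d T ≤ n T - s T)
    (hs2 : ∀ T : ℝ, 0 ≤ T → n T - s T ≤ 2 * (n T - d T))
    (H : (∀ T : ℝ, 0 < T → (n T - d T) * Real.log (5 / 4) ≤ Real.log (c T) - Real.log (g T)) ∧
    (∀ θ : ℝ, 0 < θ → θ < 2 → ((∃ C : ℝ, ∀ T : ℝ, 1 ≤ T → n T - d T ≤ C * T ^ θ) ↔
      ∃ C : ℝ, ∀ x : ℝ, 1 ≤ x → Real.log (c x) - Real.log (g x) ≤ C * x ^ θ)) ∧
    (Tendsto (fun T => d T / n T) atTop (𝓝 1) ↔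
      Tendsto (fun x => Real.log (g x) / Real.log (c x)) atTop (𝓝 1)) ∧
    (∀ T : ℝ, 0 ≤ T → 0 ≤ n T - d T) ∧ ∀ᶠ T : ℝ in atTop, 0 < n T) :
    (∀ T : ℝ, 0 < T → (n T - s T) * Real.log (5 / 4) ≤ 2 * (Real.log (c T) - Real.log (g T))) ∧
    (∀ θ : ℝ, 0 < θ → θ < 2 → ((∃ C : ℝ, ∀ T : ℝ, 1 ≤ T → n T - s T ≤ C * T ^ θ) ↔
      ∃ C : ℝ, ∀ x : ℝ, 1 ≤ x → Real.log (c x) - Real.log (g x) ≤ C * x ^ θ)) ∧
    (Tendsto (fun T => s T / n T) atTop (𝓝 1) ↔
      Tendsto (fun x => Real.log (g x) / Real.log (c x)) atTop (𝓝 1)) := by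
  obtain ⟨H1, H2, H3, H4, H5⟩ := H
  have hl : 0 < Real.log (5 / 4) := Real.log_pos (by norm_num)
  refine ⟨fun T hT => ?_, fun θ h0 h3 => ?_, ?_⟩
  · have h1 := H1 T hT
    have h2 := mul_le_mul_of_nonneg_right (hs2 T hT.le) hl.le
    linarith
  · rw [← H2 θ h0 h3]
    constructor
    · rintro ⟨C, hC⟩
      exact ⟨C, fun T hT => (hs1 T (by linarith)).trans (hC T hT)⟩
    · rintro ⟨C, hC⟩
      refine ⟨2 * C, fun T hT => (hs2 T (by linarith)).trans ?_⟩
      have := hC T hT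
      nlinarith
  · rw [← H3]
    have e1 : ∀ᶠ T : ℝ in atTop, s T / n T ≤ d T / n T := by
      filter_upwards [H5, eventually_ge_atTop 0] with T hT hT0
      have := hs1 T hT0
      exact div_le_div_of_nonneg_right (by linarith) hT.le
    have e2 : ∀ᶠ T : ℝ in atTop, 2 * (d T / n T) - 1 ≤ s T / n T := by
      filter_upwards [H5, eventually_ge_atTop 0] with T hT hT0
      have := hs2 T hT0
      rw [le_div_iff₀ hT, sub_mul, mul_assoc, div_mul_cancel₀ _ hT.ne']
      linarith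
    have e3 : ∀ᶠ T : ℝ in atTop, d T / n T ≤ 1 := by
      filter_upwards [H5, eventually_ge_atTop 0] with T hT hT0
      have := H4 T hT0
      rw [div_le_one hT]
      linarith
    constructor
    · intro h
      exact tendsto_of_tendsto_of_tendsto_of_le_of_le' h tendsto_const_nhds e1 e3
    · intro h
      have h1 : Tendsto (fun T => 2 * (d T / n T) - 1) atTop (𝓝 1) := by
        have := (h.const_mul 2).sub_const 1
        norm_num at this
        exact this
      exact tendsto_of_tendsto_of_tendsto_of_le_of_le' h1 h e2 e1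

/-- the archimedean density -/
lemma arch {m : ℕ} {A : ℝ} {a' : Fin m → ℂ} (ha : ∀ j, 0 ≤ (a' j).re) {γ : ℂ → ℂ}
    (hγ : ∀ z : ℂ, (∏ j, Gammaℝ (z + a' j)) = γ z) (t : ℝ) :
    2 * (H353.E.gaD A (fun j => -a' j) (⟨1 / 2, t⟩ : ℂ)).re =
      Real.log A + 2 * (logDeriv γ (1 / 2 + t * I)).re := by
  set s : ℂ := ⟨1 / 2, t⟩ with hs
  have hre : ∀ j, 0 < (s - (fun j => -a' j) j).re := by
    intro j
    have := ha j
    simp only [sub_neg_eq_add, Complex.add_re]
    show 0 < (1 / 2 : ℝ) + (a' j).re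
    linarith
  have h1 := H353.E.gaf_der (N := 1) one_pos hre
  have e1 : ∀ z : ℂ, H353.E.gaf 1 (fun j => -a' j) z = γ z := by
    intro z
    rw [← hγ]
    unfold H353.E.gaf
    simp only [sub_neg_eq_add, Complex.ofReal_one, Complex.one_cpow, one_mul]
  have e2 : H353.E.gaf 1 (fun j => -a' j) = γ := funext e1
  rw [e2] at h1
  have hne : γ s ≠ 0 := by
    rw [← hγ]
    refine Finset.prod_ne_zero_iff.2 fun j _ => Complex.Gammaℝ_ne_zero_of_re_pos ?_
    have := hre j
    simpa using this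
  have h3 : logDeriv γ s = H353.E.gaD 1 (fun j => -a' j) s := by
    rw [logDeriv_apply, h1.deriv, mul_div_cancel_left₀ _ hne]
  have e3 : (1 / 2 + t * I : ℂ) = s := by
    rw [hs]
    apply Complex.ext <;> simp
  rw [e3, h3]
  unfold H353.E.gaD
  simp only [Real.log_one, zero_div, Complex.ofReal_zero, zero_add, Complex.add_re, Complex.ofReal_re]
  ring

/-- numbers of simple zeros -/
lemma simple_le {F : ℂ → ℂ}
    (hline : ∀ s : ℂ, 0 < s.re → s.re < 1 → 0 < s.im → F s = 0 → s.re = 1 / 2) {A B : ℝ} (hA : 0 ≤ A)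
    (hfin : (H370.zset F A B).Finite) (hpos : ∀ s ∈ H370.zset F A B, 1 ≤ H370.mult F s) :
    (H370.NN F A B : ℝ) - H370.Nd F A B ≤ (H370.NN F A B : ℝ) - H370.Ns F A B ∧
    (H370.NN F A B : ℝ) - H370.Ns F A B ≤ 2 * ((H370.NN F A B : ℝ) - H370.Nd F A B) := by
  classical
  have h1 : H370.NN F A B = ∑ s ∈ hfin.toFinset, H370.mult F s := by
    unfold H370.NN
    rw [finsum_mem_eq_finite_toFinset_sum _ hfin]
  have h2 : H370.Nd F A B = hfin.toFinset.card := by
    unfold H370.Nd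
    rw [Set.ncard_eq_toFinset_card _ hfin]
  have h3 : H370.Ns F A B = (hfin.toFinset.filter fun s => H370.mult F s = 1).card := by
    unfold H370.Ns
    have e : {s : ℂ | s ∈ H370.zset F A B ∧ s.re = 1 / 2 ∧ H370.mult F s = 1} =
        ((hfin.toFinset.filter fun s => H370.mult F s = 1 : Finset ℂ) : Set ℂ) := by
      ext s
      simp only [Set.mem_ofPred_eq, Finset.coe_filter, Set.Finite.mem_toFinset]
      constructor
      · rintro ⟨h4, _, h5⟩
        exact ⟨h4, h5⟩
      · rintro ⟨h4, h5⟩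
        have h4' := h4
        obtain ⟨a1, a2, a3, _, a5⟩ := h4'
        exact ⟨h4, hline s a1 a2 (hA.trans_lt a3) a5, h5⟩
    rw [e, Set.ncard_coe_finset]
  rw [h1, h2, h3]
  push_cast
  rw [Finset.card_eq_sum_ones, Finset.card_filter]
  push_cast
  constructor
  · have : ∑ s ∈ hfin.toFinset, (if H370.mult F s = 1 then (1 : ℝ) else 0) ≤ ∑ s ∈ hfin.toFinset, (1 : ℝ) :=
      Finset.sum_le_sum fun s _ => by split_ifs <;> norm_num
    linarith
  · rw [← Finset.sum_sub_distrib, ← Finset.sum_sub_distrib, Finset.mul_sum]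
    refine Finset.sum_le_sum fun s hs => ?_
    have h4 := hpos s (hfin.mem_toFinset.1 hs)
    split_ifs with h5
    · rw [h5]
      norm_num
    · have h6 : 2 ≤ H370.mult F s := by omega
      have h7 : (2 : ℝ) ≤ H370.mult F s := by exact_mod_cast h6
      linarith

end Pool.Agent.Run7.h833.SG
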