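import Pool.Agent.Run7.h833.SG.G

/-! # The product of the L-functions of a primitive Dirichlet character and its conjugate

`raw_mul` is the theorem of the same name in `Pool.Agent.Run7.h966.AG.Prod`.
-/

set_option autoImplicit false
set_option maxHeartbeats 2000000

open Complex Filter Topology Set MeasureTheory
open scoped ComplexConjugate

namespace Pool.Agent.Run7.h833.SG.DL

open Pool.Agent.TH839.NA Pool.Agent.W355.UN Pool.Agent.W355.LJ Run7.h114.CA.Dual

lemma raw_sum {m r : ℕ} {N : ℝ} {a : Fin m → ℂ} {b c : ℕ → ℂ} {X : ℂ → ℂ} (h : RawT (1 / 2) m r N a b c X)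
    {s : ℂ} (hs : 2 ≤ s.re) : LSeriesSummable b s :=
  (h.coef (s := s) (by linarith)).1

/-- the product of two L-functions -/
theorem raw_mul {m r m' r' : ℕ} {N N' : ℝ} {a : Fin m → ℂ} {a' : Fin m' → ℂ} {b c b' c' : ℕ → ℂ} {X X' : ℂ → ℂ}
    (h : RawT (1 / 2) m r N a b c X) (h' : RawT (1 / 2) m' r' N' a' b' c' X') :
    RawT (1 / 2) (m + m') (r + r') (N * N') (Fin.append a a') (LSeries.convolution b b')
      (fun n => c n + c' n) (fun s => X s * X' s) := by
  have hN := h.hN
  have hN' := h'.hN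
  refine ⟨h.hm.trans (Nat.le_add_right _ _), Nat.add_le_add h.hr h'.hr, by nlinarith, by norm_num, by norm_num,
    fun j => ?_, h.entire.mul h'.entire, ?_, ?_, ?_, fun n => ?_, conv_conv h.conv h'.conv, ?_⟩
  · refine Fin.addCases (fun i => ?_) (fun i => ?_) j
    · rw [Fin.append_left]; exact h.re_ge i
    · rw [Fin.append_right]; exact h'.re_ge i
  · obtain ⟨A, ρ, h1⟩ := h.order
    obtain ⟨A', ρ', h2⟩ := h'.order
    refine ⟨|A| + |A'|, max ρ ρ', fun s => ?_⟩
    have hone : (1 : ℝ) ≤ 1 + ‖s‖ := by linarith [norm_nonneg s]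
    have e1 : A * (1 + ‖s‖) ^ ρ ≤ |A| * (1 + ‖s‖) ^ max ρ ρ' :=
      mul_le_mul (le_abs_self A) (Real.rpow_le_rpow_of_exponent_le hone (le_max_left _ _))
        (Real.rpow_nonneg (by linarith) _) (abs_nonneg A)
    have e2 : A' * (1 + ‖s‖) ^ ρ' ≤ |A'| * (1 + ‖s‖) ^ max ρ ρ' :=
      mul_le_mul (le_abs_self A') (Real.rpow_le_rpow_of_exponent_le hone (le_max_right _ _))
        (Real.rpow_nonneg (by linarith) _) (abs_nonneg A')
    rw [norm_mul]
    calc _ ≤ Real.exp (A * (1 + ‖s‖) ^ ρ) * Real.exp (A' * (1 + ‖s‖) ^ ρ') :=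
          mul_le_mul (h1 s) (h2 s) (norm_nonneg _) (Real.exp_pos _).le
      _ = Real.exp (A * (1 + ‖s‖) ^ ρ + A' * (1 + ‖s‖) ^ ρ') := by rw [← Real.exp_add]
      _ ≤ _ := Real.exp_le_exp.2 (by rw [add_mul]; exact add_le_add e1 e2)
  · obtain ⟨ε, h1, h2⟩ := h.fe
    obtain ⟨ε', h3, h4⟩ := h'.fe
    refine ⟨ε * ε', by rw [norm_mul, h1, h3, one_mul], fun s => ?_⟩
    rw [h2 s, h4 s, map_mul]
    ring
  · rw [convolution_one, h.one, h'.one, one_mul]
  · refine (norm_add_le _ _).trans ((add_le_add (h.cb n) (h'.cb n)).trans (le_of_eq ?_))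
    push_cast
    ring
  · obtain ⟨σ, hσ⟩ := h.eq
    obtain ⟨σ', hσ'⟩ := h'.eq
    refine ⟨max (max σ σ') 2, fun s hs => ?_⟩
    have hs1 : σ ≤ s.re := ((le_max_left _ _).trans (le_max_left _ _)).trans hs
    have hs2 : σ' ≤ s.re := ((le_max_right _ _).trans (le_max_left _ _)).trans hs
    have hs3 : 2 ≤ s.re := (le_max_right _ _).trans hs
    rw [hσ s hs1, hσ' s hs2, LSeries_convolution' (raw_sum h hs3) (raw_sum h' hs3), Fin.prod_univ_add, pow_add]
    simp only [Fin.append_left, Fin.append_right]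
    rw [Complex.ofReal_mul, Complex.mul_cpow_ofReal_nonneg (by linarith) (by linarith)]
    ring

variable {N : ℕ} [NeZero N] (χ : DirichletCharacter ℂ N)

omit [NeZero N] in
lemma inv_apply (n : ZMod N) : χ⁻¹ n = conj (χ n) := (MulChar.star_apply' χ n).symm

lemma parD_inv : parD χ⁻¹ = parD χ := by
  have h : χ⁻¹.Even ↔ χ.Even := by
    unfold DirichletCharacter.Even
    rw [inv_apply]
    constructor
    · intro h1
      have := congrArg conj h1
      rwa [Complex.conj_conj, map_one] at this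
    · intro h1
      rw [h1, map_one]
  unfold parD
  by_cases hE : χ.Even
  · rw [if_pos hE, if_pos (h.2 hE)]
  · rw [if_neg hE, if_neg (fun h' => hE (h.1 h'))]

lemma prim_inv (hχ : χ.IsPrimitive) : χ⁻¹.IsPrimitive := by
  have := DirichletCharacter.conductor_inv χ
  unfold DirichletCharacter.IsPrimitive at *
  rw [this, hχ]

/-- the completed L-functions of a character and its inverse -/
theorem conj_pair {X Y : ℂ → ℂ} (h : RawT (1 / 2) 1 0 N (fun _ => (parD χ : ℂ)) (fun n => χ (n : ZMod N))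
    (fun n => χ (n : ZMod N)) X) (h' : RawT (1 / 2) 1 0 N (fun _ => (parD χ⁻¹ : ℂ)) (fun n => χ⁻¹ (n : ZMod N))
    (fun n => χ⁻¹ (n : ZMod N)) Y) (s : ℂ) : Y s = conj (X (conj s)) := by
  have hN : (0 : ℝ) ≤ N := Nat.cast_nonneg N
  obtain ⟨σ, hσ⟩ := h.eq
  obtain ⟨σ', hσ'⟩ := h'.eq
  have hX : Differentiable ℂ X := h.entire
  have hY : Differentiable ℂ Y := h'.entire
  have h1 : ∀ s : ℂ, max σ σ' ≤ s.re → conj (X (conj s)) = Y s := by
    intro s hs
    rw [hσ (conj s) (by rw [Complex.conj_re]; exact (le_max_left _ _).trans hs), hσ' s ((le_max_right _ _).trans hs)]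
    have h2 : conj (LSeries (fun n => χ (n : ZMod N)) (conj s)) = LSeries (fun n => χ⁻¹ (n : ZMod N)) s := by
      rw [← LSeries_conj]
      exact LSeries_congr (fun {n} _ => (inv_apply χ _).symm) s
    rw [map_mul, h2, map_mul, map_mul, map_pow, map_mul, map_sub, map_one, Complex.conj_conj, map_prod]
    congr 2
    congr 1
    · rw [← real_cpow_conj hN, map_div₀, Complex.conj_conj, Complex.conj_ofNat]
    · refine Finset.prod_congr rfl fun j _ => ?_
      rw [← Gammaℝ_conj, map_add, Complex.conj_conj, Complex.conj_ofReal, parD_inv]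
  have h2 : (fun s => conj (X (conj s))) = Y := by
    have hd : Differentiable ℂ fun s => conj (X (conj s)) := by
      intro z
      have h5 := (hX (conj z)).conj_conj
      rw [Complex.conj_conj] at h5
      exact h5
    refine AnalyticOnNhd.eq_of_eventuallyEq (z₀ := ((max σ σ' + 1 : ℝ) : ℂ))
      (Complex.analyticOnNhd_univ_iff_differentiable.2 hd) (Complex.analyticOnNhd_univ_iff_differentiable.2 hY) ?_
    have hopen : IsOpen {s : ℂ | max σ σ' < s.re} := isOpen_lt continuous_const Complex.continuous_re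
    filter_upwards [hopen.mem_nhds (show max σ σ' < ((max σ σ' + 1 : ℝ) : ℂ).re by rw [Complex.ofReal_re]; linarith)] with s hs
    exact h1 s (le_of_lt hs)
  exact (congrFun h2 s).symm

/-- the data of the product of the L-functions of `χ` and `χ⁻¹` -/
theorem pair_data (hN : 1 < N) (hχ : χ.IsPrimitive) : ∃ X : ℂ → ℂ,
    RawT (1 / 2) (1 + 1) (0 + 0) ((N : ℝ) * N) (Fin.append (fun _ : Fin 1 => (parD χ : ℂ)) fun _ : Fin 1 => (parD χ : ℂ))
      (LSeries.convolution (fun n => χ (n : ZMod N)) fun n => χ⁻¹ (n : ZMod N))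
      (fun n => χ (n : ZMod N) + χ⁻¹ (n : ZMod N)) X ∧
    (∀ s : ℂ, X (conj s) = conj (X s)) ∧
    (∀ x : ℝ, 0 < x → X x = ((‖((N : ℝ) : ℂ) ^ ((x : ℂ) / 2) * χ.gammaFactor x * χ.LFunction x‖ ^ 2 : ℝ) : ℂ)) ∧
    (∀ s : ℂ, X s = 0 ↔ 0 < s.re ∧ s.re < 1 ∧ χ.LFunction s * χ⁻¹.LFunction s = 0) ∧
    (∀ s : ℂ, 0 < s.re → s.re < 1 → (χ⁻¹.LFunction s = 0 ↔ χ.LFunction (conj s) = 0)) ∧
    ∀ s : ℂ, 0 < s.re → analyticOrderAt X s = analyticOrderAt (fun z => χ.LFunction z * χ⁻¹.LFunction z) s := by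
  obtain ⟨X1, h1, hid1, hz1, ho1⟩ := dir_data χ hN hχ
  obtain ⟨X2, h2, _, hz2, ho2⟩ := dir_data χ⁻¹ hN (prim_inv χ hχ)
  have hc := conj_pair χ h1 h2
  rw [parD_inv] at h2
  have hχ1 : χ ≠ 1 := by
    rintro rfl
    have h1 := hχ
    rw [DirichletCharacter.isPrimitive_def, DirichletCharacter.conductor_one] at h1
    omega
  have hχ2 : χ⁻¹ ≠ 1 := fun h => hχ1 (inv_eq_one.1 h)
  refine ⟨fun s => X1 s * X2 s, raw_mul h1 h2, fun s => ?_, fun x hx => ?_, fun s => ?_, fun s hs hs' => ?_, fun s hs => ?_⟩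
  · show X1 (conj s) * X2 (conj s) = conj (X1 s * X2 s)
    rw [hc, hc, Complex.conj_conj, map_mul, Complex.conj_conj, mul_comm]
  · show X1 x * X2 x = _
    rw [hc, Complex.conj_ofReal, Complex.mul_conj, Complex.normSq_eq_norm_sq, hid1 x (by rw [Complex.ofReal_re]; exact hx)]
  · show X1 s * X2 s = 0 ↔ _
    rw [mul_eq_zero, mul_eq_zero, hz1, hz2]
    tauto
  · have e1 := hz2 s
    have e2 := hz1 (conj s)
    rw [Complex.conj_re] at e2
    have e3 : X2 s = 0 ↔ X1 (conj s) = 0 := by rw [hc, map_eq_zero]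
    constructor
    · intro h
      exact (e2.1 (e3.1 (e1.2 ⟨hs, hs', h⟩))).2.2
    · intro h
      exact (e1.1 (e3.2 (e2.2 ⟨hs, hs', h⟩))).2.2
  · have h3 := analyticOrderAt_mul (h1.entire.analyticAt s) (h2.entire.analyticAt s)
    have h4 := analyticOrderAt_mul ((DirichletCharacter.differentiable_LFunction hχ1).analyticAt s)
      ((DirichletCharacter.differentiable_LFunction hχ2).analyticAt s)
    rw [ho1 s hs, ho2 s hs, ← h4] at h3
    exact h3

open H370 in
/-- the numbers of zeros of the product -/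
theorem NN_mul {F G : ℂ → ℂ} (hF : GoodL F) (hG : GoodL G) (hFt : ∀ s, 0 < s.im → analyticOrderAt F s ≠ ⊤)
    (hGt : ∀ s, 0 < s.im → analyticOrderAt G s ≠ ⊤) {A B : ℝ} (hA : 1 ≤ A) :
    NN (fun z => F z * G z) A B = NN F A B + NN G A B := by
  classical
  have hz : zset (fun z => F z * G z) A B = zset F A B ∪ zset G A B := by
    ext s
    simp only [zset, Set.mem_ofPred_eq, Set.mem_union, mul_eq_zero]
    tauto
  have hf1 : (zset F A B).Finite := zset_finite hF A B hA
  have hf2 : (zset G A B).Finite := zset_finite hG A B hA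
  have hfin : (zset (fun z => F z * G z) A B).Finite := by
    rw [hz]
    exact hf1.union hf2
  have hm : ∀ s ∈ zset (fun z => F z * G z) A B, mult (fun z => F z * G z) s = mult F s + mult G s := by
    intro s hs
    have him : 0 < s.im := by linarith [hs.2.2.1]
    have h3 := analyticOrderAt_mul (hF.an s him) (hG.an s him)
    unfold mult analyticOrderNatAt
    have e : analyticOrderAt (fun z => F z * G z) s = analyticOrderAt F s + analyticOrderAt G s := h3
    rw [e, ENat.toNat_add (hFt s him) (hGt s him)]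
  have key : ∀ {H : ℂ → ℂ}, GoodL H → zset H A B ⊆ zset (fun z => F z * G z) A B →
      ∑ᶠ s ∈ zset (fun z => F z * G z) A B, mult H s = ∑ᶠ s ∈ zset H A B, mult H s := by
    intro H hH hsub
    refine finsum_mem_inter_support_eq _ _ _ ?_
    ext s
    constructor
    · rintro ⟨h1, h2⟩
      refine ⟨?_, h2⟩
      obtain ⟨a1, a2, a3, a4, _⟩ := h1
      refine ⟨a1, a2, a3, a4, ?_⟩
      by_contra hne
      have h3 : analyticOrderAt H s = 0 := ((hH.an s (by linarith)).analyticOrderAt_eq_zero).2 hne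
      refine h2 ?_
      unfold mult analyticOrderNatAt
      rw [h3]
      rfl
    · rintro ⟨h1, h2⟩
      exact ⟨hsub h1, h2⟩
  unfold NN
  rw [finsum_mem_congr rfl hm, finsum_mem_add_distrib hfin, key hF (by rw [hz]; exact Set.subset_union_left),
    key hG (by rw [hz]; exact Set.subset_union_right)]

end Pool.Agent.Run7.h833.SG.DL
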